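import Mathlib

/-! The number of colourings that avoid a colour on a set. -/

set_option autoImplicit false

namespace HRND

open Finset

theorem card_avoid {V : Type} [Fintype V] [DecidableEq V] (x : ℕ) (S : Finset V) (c : Fin x) :
    (univ.filter (fun f : V → Fin x => ∀ w ∈ S, f w ≠ c)).card =
      (x - 1) ^ S.card * x ^ (Fintype.card V - S.card) := by
  have h : univ.filter (fun f : V → Fin x => ∀ w ∈ S, f w ≠ c) =
      Fintype.piFinset (fun y : V => if y ∈ S then (univ.erase c : Finset (Fin x)) else univ) := by
    ext f
    simp only [mem_filter, mem_univ, true_and, Fintype.mem_piFinset]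
    constructor
    · intro hf y
      by_cases hy : y ∈ S
      · rw [if_pos hy, mem_erase]
        exact ⟨hf y hy, mem_univ _⟩
      · rw [if_neg hy]
        exact mem_univ _
    · intro hf w hw
      have h1 := hf w
      rw [if_pos hw, mem_erase] at h1
      exact h1.1
  rw [h, Fintype.card_piFinset]
  have h2 : ∀ y : V, (if y ∈ S then (univ.erase c : Finset (Fin x)) else univ).card =
      if y ∈ S then x - 1 else x := by
    intro y
    split_ifs with hy
    · rw [card_erase_of_mem (mem_univ _), card_univ, Fintype.card_fin]
    · rw [card_univ, Fintype.card_fin]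
  rw [prod_congr rfl (fun y _ => h2 y), prod_ite, prod_const, prod_const]
  have h3 : (univ.filter (fun y : V => y ∈ S)) = S := by
    ext y
    simp
  have h4 : (univ.filter (fun y : V => y ∉ S)).card = Fintype.card V - S.card := by
    have h5 : (univ.filter (fun y : V => y ∉ S)) = Sᶜ := by
      ext y
      simp
    rw [h5, card_compl]
  rw [h3, h4]

end HRND
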