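import Pool.Agent.Lib.MP_278fbd_co.LOD.Lin

/-! Hoang and Reed's question for digraphs with very large out-degrees. -/

set_option autoImplicit false

namespace HRND

open Finset

theorem final_aux (V : Type) [Fintype V] [Nonempty V] (G : Digraph V)
    (hG : ∀ v : V, ¬ G.Adj v v) (r t : ℕ) (hr : ∀ v : V, r ≤ {w : V | G.Adj v w}.ncard)
    (ht : Fintype.card V ≤ r + 1 + t) (hbig : 5 * t ≤ Fintype.card V) :
    HS G (Fintype.card V - 1 - t) (Set.univ : Set V) := by
  classical
  set n := Fintype.card V with hn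
  have hnpos : 0 < n := Fintype.card_pos
  -- out-misses
  have hmiss : ∀ u : V, (univ.filter (fun w => w ≠ u ∧ ¬ G.Adj u w)).card ≤ t := by
    intro u
    have h1 : {w : V | G.Adj u w} = (↑(univ.filter (fun w => G.Adj u w)) : Set V) := by
      ext w
      simp
    have h2 := hr u
    rw [h1, Set.ncard_coe_finset] at h2
    have h3 : (univ.filter (fun w => w ≠ u ∧ ¬ G.Adj u w)) ⊆
        (univ.erase u) \ (univ.filter (fun w => G.Adj u w)) := by
      intro w hw
      rw [mem_filter] at hw
      rw [mem_sdiff, mem_erase, mem_filter]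
      exact ⟨⟨hw.2.1, mem_univ _⟩, fun h => hw.2.2 h.2⟩
    have h4 := card_le_card h3
    have h5 : (univ.filter (fun w => G.Adj u w)) ⊆ univ.erase u := by
      intro w hw
      rw [mem_filter] at hw
      refine mem_erase.2 ⟨?_, mem_univ _⟩
      intro h
      rw [h] at hw
      exact hG u hw.2
    rw [card_sdiff_of_subset h5, card_erase_of_mem (mem_univ _), card_univ] at h4
    omega
  -- a vertex with few in-misses
  obtain ⟨v0, -, hv0⟩ : ∃ v0 ∈ (univ : Finset V),
      (univ.filter (fun u => v0 ≠ u ∧ ¬ G.Adj u v0)).card ≤ t := by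
    apply exists_le_of_sum_le (univ_nonempty)
    have h1 : ∑ v : V, (univ.filter (fun u => v ≠ u ∧ ¬ G.Adj u v)).card =
        ∑ u : V, (univ.filter (fun v => v ≠ u ∧ ¬ G.Adj u v)).card := by
      exact (sum_card_bipartiteAbove_eq_sum_card_bipartiteBelow
        (s := (univ : Finset V)) (t := (univ : Finset V))
        (fun v u => v ≠ u ∧ ¬ G.Adj u v))
    rw [h1]
    exact sum_le_sum (fun u _ => hmiss u)
  set Y : Finset V := univ.filter (fun y => y ≠ v0 ∧ G.Adj v0 y ∧ G.Adj y v0) with hY
  set M : Finset V := insert v0 Y with hMdef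
  have hMcard : n ≤ M.card + 2 * t := by
    have hsub : (univ : Finset V) ⊆ M ∪ ((univ.filter (fun w => w ≠ v0 ∧ ¬ G.Adj v0 w)) ∪
        (univ.filter (fun u => v0 ≠ u ∧ ¬ G.Adj u v0))) := by
      intro z _
      rw [mem_union, mem_union, mem_filter, mem_filter]
      by_cases hz : z = v0
      · left
        rw [hMdef, hz]
        exact mem_insert_self _ _
      · by_cases h1 : G.Adj v0 z
        · by_cases h2 : G.Adj z v0
          · left
            rw [hMdef]
            exact mem_insert_of_mem (mem_filter.2 ⟨mem_univ _, hz, h1, h2⟩)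
          · right; right
            exact ⟨mem_univ _, fun h => hz h.symm, h2⟩
        · right; left
          exact ⟨mem_univ _, hz, h1⟩
    have h1 := card_le_card hsub
    rw [card_univ] at h1
    have h2 := card_union_le M ((univ.filter (fun w => w ≠ v0 ∧ ¬ G.Adj v0 w)) ∪
        (univ.filter (fun u => v0 ≠ u ∧ ¬ G.Adj u v0)))
    have h3 := card_union_le (univ.filter (fun w => w ≠ v0 ∧ ¬ G.Adj v0 w))
        (univ.filter (fun u => v0 ≠ u ∧ ¬ G.Adj u v0))
    have h4 := hmiss v0
    omega
  have hstarM : HS G (M.card - 1) (↑M : Set V) := by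
    have h1 := star hG v0 Y (fun y hy => by
      rw [hY, mem_filter] at hy
      exact hy.2)
    have h2 : v0 ∉ Y := by
      rw [hY, mem_filter]
      exact fun h => h.2.1 rfl
    rw [hMdef, card_insert_of_notMem h2, Nat.add_sub_cancel, coe_insert]
    exact h1
  -- a maximal set which contains the star and is connected by 2-cycles
  obtain ⟨B, hBmem, hBmax⟩ := exists_max_image
    (univ.filter (fun B : Finset V => M ⊆ B ∧ HS G (B.card - 1) (↑B : Set V))) card
    ⟨M, mem_filter.2 ⟨mem_univ _, Subset.refl _, hstarM⟩⟩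
  obtain ⟨-, hMB, hB⟩ := mem_filter.1 hBmem
  have hv0B : v0 ∈ B := hMB (mem_insert_self _ _)
  have hBpos : 1 ≤ B.card := card_pos.2 ⟨v0, hv0B⟩
  have hBW : ∀ a ∈ B, ∀ b, b ∉ B → G.Adj a b → ¬ G.Adj b a := by
    intro a ha b hb h1 h2
    have h3 : HS G (B.card - 1 + 1) (↑(insert b B) : Set V) := by
      refine HS.add_two hG hB a b (fun h => hb (mem_coe.1 h)) h1 h2 ?_ ?_ ?_
      · exact coe_subset.2 (subset_insert _ _)
      · exact mem_coe.2 (mem_insert_of_mem ha)
      · exact mem_coe.2 (mem_insert_self _ _)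
    have h5 : (insert b B).card = B.card + 1 := card_insert_of_notMem hb
    have h4 := hBmax (insert b B) (mem_filter.2 ⟨mem_univ _, hMB.trans (subset_insert _ _), by
      rw [h5, show B.card + 1 - 1 = B.card - 1 + 1 by omega]
      exact h3⟩)
    omega
  have hBc : n ≤ B.card + 2 * t := hMcard.trans (Nat.add_le_add_right (card_le_card hMB) _)
  have h := main_lin G hG t hmiss B ⟨v0, hv0B⟩ hB hBW hBc hbig n univ (by rw [card_univ])
    (subset_univ _)
  rw [card_univ, coe_univ] at h
  exact h

theorem final (V : Type) [Fintype V] [Nonempty V] (G : Digraph V)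
    (hG : ∀ v : V, ¬ G.Adj v v) (r : ℕ) (hr : ∀ v : V, r ≤ {w : V | G.Adj v w}.ncard)
    (hbig : 4 * Fintype.card V ≤ 5 * (r + 1)) :
    ∃ C : Fin r → Set V,
      (∀ l : Fin r, ∃ (k : ℕ) (f : Fin k → V),
          2 ≤ k ∧ Function.Injective f ∧ Set.range f = C l ∧
          ∀ i : Fin k, G.Adj (f i) (f (finRotate k i))) ∧
      ∀ l : Fin r, (C l ∩ ⋃ i : Fin r, ⋃ (_ : i < l), C i).ncard ≤ 1 := by
  have hle : r + 1 ≤ Fintype.card V := by
    obtain ⟨v⟩ := (inferInstance : Nonempty V)
    have h1 := hr v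
    have h2 : {w : V | G.Adj v w} ⊆ ({v} : Set V)ᶜ := by
      intro w hw h
      have h9 : w = v := h
      have hw' : G.Adj v w := hw
      rw [h9] at hw'
      exact hG v hw'
    have h3 := Set.ncard_le_ncard h2 (Set.toFinite _)
    have h6 := Set.ncard_add_ncard_compl ({v} : Set V)
    rw [Set.ncard_singleton, Nat.card_eq_fintype_card] at h6
    omega
  have h := final_aux V G hG r (Fintype.card V - 1 - r) hr (by omega) (by omega)
  have he : Fintype.card V - 1 - (Fintype.card V - 1 - r) = r := by omega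
  rw [he] at h
  obtain ⟨C, h1, -, h3⟩ := h.out
  exact ⟨C, h1, h3⟩

end HRND
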