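import Mathlib

/-! Sequences of directed cycles, each meeting the union of the earlier ones in at most one
vertex. -/

set_option autoImplicit false

namespace HRND

variable {V : Type}

/-- `C` is the vertex set of a directed cycle of `G`, of length at least two. -/
def IsCyc (G : Digraph V) (C : Set V) : Prop :=
  ∃ (k : ℕ) (f : Fin k → V), 2 ≤ k ∧ Function.Injective f ∧ Set.range f = C ∧
    ∀ i : Fin k, G.Adj (f i) (f (finRotate k i))

/-- `HS G N X`: there are `N` cycles inside `X`, each meeting the union of the earlier ones in at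
most one vertex. -/
inductive HS (G : Digraph V) : ℕ → Set V → Prop
  | zero (X : Set V) : HS G 0 X
  | step (N : ℕ) (X X' C : Set V) (h : HS G N X) (hC : IsCyc G C) (h1 : (C ∩ X).ncard ≤ 1)
      (h2 : X ⊆ X') (h3 : C ⊆ X') : HS G (N + 1) X'

theorem HS.mono_set {G : Digraph V} {N : ℕ} {X : Set V} (h : HS G N X) {Y : Set V}
    (hXY : X ⊆ Y) : HS G N Y := by
  cases h with
  | zero => exact HS.zero Y
  | step N X X' C h hC h1 h2 h3 =>
    exact HS.step N X Y C h hC h1 (h2.trans hXY) (h3.trans hXY)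

theorem HS.mono {G : Digraph V} {N : ℕ} {X : Set V} (h : HS G N X) :
    ∀ N' : ℕ, N' ≤ N → HS G N' X := by
  induction h with
  | zero X =>
    intro N' hN'
    have h0 : N' = 0 := by omega
    rw [h0]
    exact HS.zero X
  | step N X X' C h hC h1 h2 h3 ih =>
    intro N' hN'
    rcases Nat.lt_or_ge N N' with hlt | hge
    · have h0 : N' = N + 1 := by omega
      rw [h0]
      exact HS.step N X X' C h hC h1 h2 h3
    · exact (ih N' hge).mono_set h2

/-- a finite set in which every vertex has an out-neighbour contains a cycle -/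
theorem exists_cyc [Finite V] (G : Digraph V) (hG : ∀ v : V, ¬ G.Adj v v) (A : Set V)
    (hA : A.Nonempty) (hout : ∀ a ∈ A, ∃ b ∈ A, G.Adj a b) : ∃ C ⊆ A, IsCyc G C := by
  classical
  have hg : ∃ g : V → V, ∀ a ∈ A, g a ∈ A ∧ G.Adj a (g a) := by
    have h : ∀ a : V, ∃ b : V, a ∈ A → (b ∈ A ∧ G.Adj a b) := by
      intro a
      by_cases ha : a ∈ A
      · obtain ⟨b, hb, hab⟩ := hout a ha
        exact ⟨b, fun _ => ⟨hb, hab⟩⟩
      · exact ⟨a, fun h => absurd h ha⟩
    choose g hg using h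
    exact ⟨g, hg⟩
  obtain ⟨g, hg⟩ := hg
  obtain ⟨a, ha⟩ := hA
  have hit : ∀ n : ℕ, g^[n] a ∈ A := by
    intro n
    induction n with
    | zero => exact ha
    | succ n ih =>
      rw [Function.iterate_succ_apply']
      exact (hg _ ih).1
  obtain ⟨i, j, hij, he⟩ := Finite.exists_ne_map_eq_of_infinite (fun n : ℕ => g^[n] a)
  have hper : ∃ (b : V) (m : ℕ), b ∈ A ∧ 0 < m ∧ g^[m] b = b := by
    rcases Nat.lt_or_gt_of_ne hij with hlt | hgt
    · refine ⟨g^[i] a, j - i, hit i, by omega, ?_⟩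
      rw [← Function.iterate_add_apply, Nat.sub_add_cancel hlt.le]
      exact he.symm
    · refine ⟨g^[j] a, i - j, hit j, by omega, ?_⟩
      rw [← Function.iterate_add_apply, Nat.sub_add_cancel (le_of_lt hgt)]
      exact he
  obtain ⟨b, m, hb, hm, hbm⟩ := hper
  have hbit : ∀ n : ℕ, g^[n] b ∈ A := by
    intro n
    induction n with
    | zero => exact hb
    | succ n ih =>
      rw [Function.iterate_succ_apply']
      exact (hg _ ih).1
  have hppos : 0 < Function.minimalPeriod g b :=
    Function.IsPeriodicPt.minimalPeriod_pos hm hbm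
  obtain ⟨q, hq⟩ : ∃ q, Function.minimalPeriod g b = q + 1 :=
    ⟨Function.minimalPeriod g b - 1, by omega⟩
  have hpp : g^[Function.minimalPeriod g b] b = b := Function.isPeriodicPt_minimalPeriod g b
  refine ⟨Set.range (fun i : Fin (q + 1) => g^[(i : ℕ)] b), ?_, q + 1,
    fun i : Fin (q + 1) => g^[(i : ℕ)] b, ?_, ?_, rfl, ?_⟩
  · rintro _ ⟨i, rfl⟩
    exact hbit i
  · by_contra hlt
    have h0 : q = 0 := by omega
    rw [hq, h0] at hpp
    simp only [zero_add, Function.iterate_one] at hpp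
    have h1 := (hg b hb).2
    rw [hpp] at h1
    exact hG b h1
  · intro i j hij
    have h1 : (i : ℕ) ∈ Set.Iio (Function.minimalPeriod g b) := by
      rw [Set.mem_Iio, hq]
      exact i.2
    have h2 : (j : ℕ) ∈ Set.Iio (Function.minimalPeriod g b) := by
      rw [Set.mem_Iio, hq]
      exact j.2
    exact Fin.ext (Function.iterate_injOn_Iio_minimalPeriod h1 h2 hij)
  · intro i
    have h1 : G.Adj (g^[(i : ℕ)] b) (g^[(i : ℕ) + 1] b) := by
      rw [Function.iterate_succ_apply']
      exact (hg _ (hbit i)).2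
    show G.Adj (g^[(i : ℕ)] b) (g^[((finRotate (q + 1) i : Fin (q + 1)) : ℕ)] b)
    rw [finRotate_apply]
    by_cases hi : i = Fin.last q
    · have h2 : ((i + 1 : Fin (q + 1)) : ℕ) = 0 := by
        rw [hi]
        simp
      rw [h2]
      rw [hi, Fin.val_last] at h1
      rw [hi, Fin.val_last]
      rw [hq] at hpp
      rw [hpp] at h1
      exact h1
    · have h2 : ((i + 1 : Fin (q + 1)) : ℕ) = i + 1 := by
        rw [Fin.val_add_one, if_neg hi]
      rw [h2]
      exact h1

/-- adding a cycle inside a set `A` which meets `X` in at most one vertex -/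
theorem HS.add [Finite V] {G : Digraph V} (hG : ∀ v : V, ¬ G.Adj v v) {N : ℕ} {X : Set V}
    (h : HS G N X) (A : Set V) (hA : A.Nonempty) (hout : ∀ a ∈ A, ∃ b ∈ A, G.Adj a b)
    (v : V) (hv : A ∩ X ⊆ {v}) {Y : Set V} (hXY : X ⊆ Y) (hAY : A ⊆ Y) : HS G (N + 1) Y := by
  obtain ⟨C, hCA, hC⟩ := exists_cyc G hG A hA hout
  refine HS.step N X Y C h hC ?_ hXY (hCA.trans hAY)
  have h1 : C ∩ X ⊆ {v} := fun x hx => hv ⟨hCA hx.1, hx.2⟩
  exact (Set.ncard_le_ncard h1 (Set.toFinite _)).trans (by rw [Set.ncard_singleton])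

/-- adding a 2-cycle -/
theorem HS.add_two [Finite V] {G : Digraph V} (hG : ∀ v : V, ¬ G.Adj v v) {N : ℕ} {X : Set V}
    (h : HS G N X) (a b : V) (hb : b ∉ X) (hab : G.Adj a b) (hba : G.Adj b a)
    {Y : Set V} (hXY : X ⊆ Y) (ha' : a ∈ Y) (hb' : b ∈ Y) : HS G (N + 1) Y := by
  refine HS.add hG h {a, b} ⟨a, Or.inl rfl⟩ ?_ a ?_ hXY ?_
  · rintro x (rfl | hx)
    · exact ⟨b, Or.inr rfl, hab⟩
    · rw [Set.mem_singleton_iff] at hx
      rw [hx]
      exact ⟨a, Or.inl rfl, hba⟩
  · rintro x ⟨rfl | hx, hxX⟩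
    · rfl
    · rw [Set.mem_singleton_iff] at hx
      rw [hx] at hxX
      exact absurd hxX hb
  · rintro x (rfl | hx)
    · exact ha'
    · rw [Set.mem_singleton_iff] at hx
      rw [hx]
      exact hb'

/-- a star of 2-cycles -/
theorem star [Finite V] [DecidableEq V] {G : Digraph V} (hG : ∀ v : V, ¬ G.Adj v v) (v0 : V)
    (Y : Finset V) (hY : ∀ y ∈ Y, y ≠ v0 ∧ G.Adj v0 y ∧ G.Adj y v0) :
    HS G Y.card (insert v0 (↑Y : Set V)) := by
  induction Y using Finset.induction_on with
  | empty => exact HS.zero _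
  | insert y Y hy ih =>
    rw [Finset.card_insert_of_notMem hy]
    have h1 := ih (fun z hz => hY z (Finset.mem_insert_of_mem hz))
    obtain ⟨h2, h3, h4⟩ := hY y (Finset.mem_insert_self y Y)
    refine HS.add_two hG h1 v0 y ?_ h3 h4 ?_ (Or.inl rfl) ?_
    · rintro (h | h)
      · exact h2 h
      · exact hy (Finset.mem_coe.1 h)
    · rintro z (rfl | hz)
      · exact Or.inl rfl
      · exact Or.inr (Finset.mem_coe.2 (Finset.mem_insert_of_mem (Finset.mem_coe.1 hz)))
    · exact Or.inr (Finset.mem_coe.2 (Finset.mem_insert_self y Y))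

/-- the sequence of cycles in the form used by the problem -/
theorem HS.out [Finite V] {G : Digraph V} {N : ℕ} {X : Set V} (h : HS G N X) :
    ∃ C : Fin N → Set V, (∀ l, IsCyc G (C l)) ∧ (∀ l, C l ⊆ X) ∧
      ∀ l : Fin N, (C l ∩ ⋃ i : Fin N, ⋃ (_ : i < l), C i).ncard ≤ 1 := by
  induction h with
  | zero X => exact ⟨fun l => l.elim0, fun l => l.elim0, fun l => l.elim0, fun l => l.elim0⟩
  | step N X X' C h hC h1 h2 h3 ih =>
    obtain ⟨D, hD1, hD2, hD3⟩ := ih
    refine ⟨Fin.snoc (α := fun _ => Set V) D C, ?_, ?_, ?_⟩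
    · intro l
      refine Fin.lastCases ?_ (fun i => ?_) l
      · rw [Fin.snoc_last]
        exact hC
      · rw [Fin.snoc_castSucc]
        exact hD1 i
    · intro l
      refine Fin.lastCases ?_ (fun i => ?_) l
      · rw [Fin.snoc_last]
        exact h3
      · rw [Fin.snoc_castSucc]
        exact (hD2 i).trans h2
    · intro l
      refine Fin.lastCases ?_ (fun i => ?_) l
      · rw [Fin.snoc_last]
        refine le_trans (Set.ncard_le_ncard ?_ (Set.toFinite _)) h1
        rintro x ⟨hx1, hx2⟩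
        refine ⟨hx1, ?_⟩
        rw [Set.mem_iUnion] at hx2
        obtain ⟨i, hx3⟩ := hx2
        rw [Set.mem_iUnion] at hx3
        obtain ⟨hi, hx4⟩ := hx3
        revert hi hx4
        refine Fin.lastCases ?_ (fun j => ?_) i
        · intro hi _
          exact absurd hi (lt_irrefl _)
        · intro _ hx4
          rw [Fin.snoc_castSucc] at hx4
          exact hD2 j hx4
      · rw [Fin.snoc_castSucc]
        refine le_trans (Set.ncard_le_ncard ?_ (Set.toFinite _)) (hD3 i)
        rintro x ⟨hx1, hx2⟩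
        refine ⟨hx1, ?_⟩
        rw [Set.mem_iUnion] at hx2 ⊢
        obtain ⟨j, hx3⟩ := hx2
        rw [Set.mem_iUnion] at hx3
        obtain ⟨hj, hx4⟩ := hx3
        revert hj hx4
        refine Fin.lastCases ?_ (fun j' => ?_) j
        · intro hj _
          exact absurd hj (not_lt.2 (Fin.le_last _))
        · intro hj hx4
          rw [Fin.snoc_castSucc] at hx4
          refine ⟨j', ?_⟩
          rw [Set.mem_iUnion]
          exact ⟨Fin.castSucc_lt_castSucc_iff.1 hj, hx4⟩

end HRND
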