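import Pool.Agent.Lib.MP_278fbd_co.LOD.Many
import Pool.Agent.Lib.MP_278fbd_co.LOD.Seq

/-! The main argument: a big set joined by 2-cycles and a colouring of the other vertices. -/

set_option autoImplicit false

namespace HRND

open Finset

variable {V : Type}

/-- one colour class: if more roots see the class than the sinks of the class can miss, then there
is a cycle inside the class together with at most one vertex of `M` -/
theorem class_good [Fintype V] [DecidableEq V] {G : Digraph V} {x : ℕ}
    (M O : Finset V) (hMO : Disjoint M O) (D T mis : V → Finset V)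
    (f : V → Fin x)
    (hDO : ∀ u, ∀ w ∈ D u, w ∈ O ∧ G.Adj u w)
    (hT : ∀ v ∈ M, ∀ u ∈ T v, u ∈ O ∧ G.Adj v u)
    (hmis : ∀ u, ∀ v ∈ M, v ∉ mis u → G.Adj u v)
    (c : Fin x)
    (hc : ∑ s ∈ O.filter (fun s => f s = c ∧ ∀ w ∈ D s, f w ≠ c), (mis s).card <
      (M.filter (fun v => ∃ u ∈ T v, f u = c)).card) :
    ∃ (A : Set V) (v : V), A.Nonempty ∧ (∀ a ∈ A, ∃ b ∈ A, G.Adj a b) ∧
      (∀ a ∈ A, a = v ∨ (a ∈ O ∧ f a = c)) ∧ (v ∈ A → v ∈ M ∨ (v ∈ O ∧ f v = c)) ∧
      (∀ a ∈ A, a ∈ M → a = v) := by
  classical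
  obtain ⟨v, hvact, hvs⟩ : ∃ v ∈ M.filter (fun v => ∃ u ∈ T v, f u = c),
      ∀ s ∈ O.filter (fun s => f s = c ∧ ∀ w ∈ D s, f w ≠ c), v ∉ mis s := by
    by_contra hcon
    push Not at hcon
    have h1 : M.filter (fun v => ∃ u ∈ T v, f u = c) ⊆
        (O.filter (fun s => f s = c ∧ ∀ w ∈ D s, f w ≠ c)).biUnion mis := by
      intro v hv
      obtain ⟨s, hs, hvs⟩ := hcon v hv
      exact mem_biUnion.2 ⟨s, hs, hvs⟩
    have h2 := (card_le_card h1).trans card_biUnion_le
    omega
  rw [mem_filter] at hvact
  obtain ⟨hvM, u0, hu0T, hu0c⟩ := hvact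
  obtain ⟨hu0O, hvu0⟩ := hT v hvM u0 hu0T
  have hg : ∃ g : V → V, (∀ u, (∃ w ∈ D u, f w = c) → g u ∈ D u ∧ f (g u) = c) ∧
      ∀ u, (¬ ∃ w ∈ D u, f w = c) → g u = u := by
    have h : ∀ u : V, ∃ w : V, ((∃ w ∈ D u, f w = c) → (w ∈ D u ∧ f w = c)) ∧
        ((¬ ∃ w ∈ D u, f w = c) → w = u) := by
      intro u
      by_cases hu : ∃ w ∈ D u, f w = c
      · obtain ⟨w, hw, hw2⟩ := hu
        exact ⟨w, fun _ => ⟨hw, hw2⟩, fun h => absurd ⟨w, hw, hw2⟩ h⟩
      · exact ⟨u, fun h => absurd h hu, fun _ => rfl⟩
    choose g hg using h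
    exact ⟨g, fun u hu => (hg u).1 hu, fun u hu => (hg u).2 hu⟩
  obtain ⟨g, hgB, hgN⟩ := hg
  have hit : ∀ n : ℕ, g^[n] u0 ∈ O ∧ f (g^[n] u0) = c := by
    intro n
    induction n with
    | zero => exact ⟨hu0O, hu0c⟩
    | succ n ih =>
      rw [Function.iterate_succ_apply']
      by_cases hb : ∃ w ∈ D (g^[n] u0), f w = c
      · obtain ⟨h1, h2⟩ := hgB _ hb
        exact ⟨(hDO _ _ h1).1, h2⟩
      · rw [hgN _ hb]
        exact ih
  have hnotM : ∀ n : ℕ, g^[n] u0 ∉ M := fun n h => (Finset.disjoint_left.1 hMO) h (hit n).1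
  by_cases hall : ∀ n : ℕ, ∃ w ∈ D (g^[n] u0), f w = c
  · refine ⟨Set.range (fun n : ℕ => g^[n] u0), u0, ⟨u0, ⟨0, rfl⟩⟩, ?_, ?_, ?_, ?_⟩
    · rintro _ ⟨n, rfl⟩
      refine ⟨g^[n + 1] u0, ⟨n + 1, rfl⟩, ?_⟩
      rw [Function.iterate_succ_apply']
      exact (hDO _ _ (hgB _ (hall n)).1).2
    · rintro _ ⟨n, rfl⟩
      exact Or.inr (hit n)
    · intro _
      exact Or.inr ⟨hu0O, hu0c⟩
    · rintro _ ⟨n, rfl⟩ hM
      exact absurd hM (hnotM n)
  · obtain ⟨i, hi⟩ := not_forall.1 hall
    have hvm : v ∉ mis (g^[i] u0) := by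
      apply hvs
      rw [mem_filter]
      refine ⟨(hit i).1, (hit i).2, ?_⟩
      intro w hw h
      exact hi ⟨w, hw, h⟩
    have hyv : G.Adj (g^[i] u0) v := hmis _ v hvM hvm
    refine ⟨insert v (Set.range (fun n : ℕ => g^[n] u0)), v, ⟨v, Or.inl rfl⟩, ?_, ?_, ?_, ?_⟩
    · rintro a (rfl | ⟨n, rfl⟩)
      · exact ⟨u0, Or.inr ⟨0, rfl⟩, hvu0⟩
      · by_cases hb : ∃ w ∈ D (g^[n] u0), f w = c
        · refine ⟨g^[n + 1] u0, Or.inr ⟨n + 1, rfl⟩, ?_⟩
          rw [Function.iterate_succ_apply']
          exact (hDO _ _ (hgB _ hb).1).2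
        · refine ⟨v, Or.inl rfl, ?_⟩
          have he : g^[n] u0 = g^[i] u0 := by
            rcases Nat.le_total i n with hin | hni
            · have h1 : n = (n - i) + i := by omega
              rw [h1, Function.iterate_add_apply]
              exact Function.iterate_fixed (hgN _ hi) _
            · have h1 : i = (i - n) + n := by omega
              rw [h1, Function.iterate_add_apply]
              exact (Function.iterate_fixed (hgN _ hb) _).symm
          show G.Adj (g^[n] u0) v
          rw [he]
          exact hyv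
    · rintro a (rfl | ⟨n, rfl⟩)
      · exact Or.inl rfl
      · exact Or.inr (hit n)
    · intro _
      exact Or.inl hvM
    · rintro a (rfl | ⟨n, rfl⟩) hM
      · rfl
      · exact absurd hM (hnotM n)

/-- if no 2-cycle leaves the root set `B` and no 2-cycle of `X` meets `X \ B`, then `B` is large -/
theorem big_root [Fintype V] [DecidableEq V] (G : Digraph V)
    [∀ a b, Decidable (G.Adj a b)] (t : ℕ)
    (hmiss : ∀ u : V, (univ.filter (fun w => w ≠ u ∧ ¬ G.Adj u w)).card ≤ t)
    (B X : Finset V) (hBX : B ⊆ X)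
    (hBW : ∀ a ∈ B, ∀ b, b ∉ B → G.Adj a b → ¬ G.Adj b a)
    (hBc : Fintype.card V ≤ B.card + 2 * t) (hn : 5 * t ≤ Fintype.card V)
    (hpair : ∀ b ∈ X \ B, ∀ a ∈ X, a ≠ b → G.Adj a b → ¬ G.Adj b a)
    (hO : t + 1 ≤ (X \ B).card) : 19 * t ≤ 5 * B.card := by
  set O : Finset V := X \ B with hOdef
  set Z : Finset V := univ \ X with hZdef
  set I : V → Finset V := fun u => B.filter (fun v => G.Adj v u) with hI
  set R : V → Finset V := fun u => O.filter (fun w => w ≠ u ∧ ¬ G.Adj u w) with hR
  have hOZ : Disjoint O Z := by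
    rw [disjoint_left]
    intro a ha hb
    rw [hOdef, mem_sdiff] at ha
    rw [hZdef, mem_sdiff] at hb
    exact hb.2 ha.1
  have hOB : ∀ u ∈ O, u ∉ B := fun u hu => (mem_sdiff.1 hu).2
  have hZB : ∀ u ∈ Z, u ∉ B := fun u hu h => (mem_sdiff.1 hu).2 (hBX h)
  have hcard : B.card + O.card + Z.card = Fintype.card V := by
    have h1 : O.card = X.card - B.card := by rw [hOdef, card_sdiff_of_subset hBX]
    have h2 : Z.card = Fintype.card V - X.card := by
      rw [hZdef, card_sdiff_of_subset (subset_univ X), card_univ]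
    have h3 := card_le_card hBX
    have h4 : X.card ≤ Fintype.card V := card_le_univ X
    omega
  -- every root sees all but `t` vertices outside `B`
  have hA : ∀ v ∈ B, O.card + Z.card - t ≤ ((O ∪ Z).filter (fun u => G.Adj v u)).card := by
    intro v hv
    have hsub : (O ∪ Z) \ ((O ∪ Z).filter (fun u => G.Adj v u)) ⊆
        univ.filter (fun w => w ≠ v ∧ ¬ G.Adj v w) := by
      intro w hw
      rw [mem_sdiff] at hw
      rw [mem_filter]
      refine ⟨mem_univ _, ?_, ?_⟩
      · intro h
        rw [h] at hw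
        rcases mem_union.1 hw.1 with h1 | h1
        · exact hOB v h1 hv
        · exact hZB v h1 hv
      · intro h
        exact hw.2 (mem_filter.2 ⟨hw.1, h⟩)
    have h1 := (card_le_card hsub).trans (hmiss v)
    have h2 := le_card_sdiff ((O ∪ Z).filter (fun u => G.Adj v u)) (O ∪ Z)
    rw [card_union_of_disjoint hOZ] at h2
    omega
  have hS : B.card * (O.card + Z.card - t) ≤ ∑ u ∈ O, (I u).card + ∑ u ∈ Z, (I u).card := by
    have h1 : ∑ v ∈ B, ((O ∪ Z).filter (fun u => G.Adj v u)).card =
        ∑ u ∈ O ∪ Z, (B.filter (fun v => G.Adj v u)).card :=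
      sum_card_bipartiteAbove_eq_sum_card_bipartiteBelow (fun v u => G.Adj v u)
    rw [← sum_union hOZ, hI]
    rw [← h1, ← smul_eq_mul, ← sum_const]
    exact sum_le_sum hA
  have hZt : ∀ u ∈ Z, (I u).card ≤ t := by
    intro u hu
    refine (card_le_card ?_).trans (hmiss u)
    intro v hv
    rw [hI, mem_filter] at hv
    rw [mem_filter]
    refine ⟨mem_univ _, ?_, hBW v hv.1 u (hZB u hu) hv.2⟩
    intro h
    exact hZB u hu (h ▸ hv.1)
  have hOt : ∀ u ∈ O, (I u).card + (R u).card ≤ t := by
    intro u hu
    have hsub : I u ∪ R u ⊆ univ.filter (fun w => w ≠ u ∧ ¬ G.Adj u w) := by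
      intro w hw
      rw [mem_filter]
      refine ⟨mem_univ _, ?_⟩
      rcases mem_union.1 hw with h1 | h1
      · rw [hI, mem_filter] at h1
        refine ⟨?_, hBW w h1.1 u (hOB u hu) h1.2⟩
        intro h
        exact hOB u hu (h ▸ h1.1)
      · rw [hR, mem_filter] at h1
        exact h1.2
    have hdis : Disjoint (I u) (R u) := by
      rw [disjoint_left]
      intro w hw hw2
      rw [hI, mem_filter] at hw
      rw [hR, mem_filter] at hw2
      exact hOB w hw2.1 hw.1
    have h1 := card_le_card hsub
    rw [card_union_of_disjoint hdis] at h1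
    exact h1.trans (hmiss u)
  have hRsum : O.card * (O.card - 1) ≤ 2 * ∑ u ∈ O, (R u).card := by
    have h1 : ∑ u ∈ O, (O.filter (fun w => w ≠ u ∧ ¬ G.Adj u w)).card =
        ∑ u ∈ O, (O.filter (fun w => w ≠ u ∧ ¬ G.Adj w u)).card := by
      have h3 : ∑ u ∈ O, (O.filter (fun w => w ≠ u ∧ ¬ G.Adj u w)).card =
          ∑ w ∈ O, (O.filter (fun u => w ≠ u ∧ ¬ G.Adj u w)).card :=
        sum_card_bipartiteAbove_eq_sum_card_bipartiteBelow
          (s := O) (t := O) (fun u w => w ≠ u ∧ ¬ G.Adj u w)
      rw [h3]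
      refine sum_congr rfl (fun w _ => ?_)
      congr 1
      ext u
      simp only [mem_filter]
      constructor
      · rintro ⟨h4, h5, h6⟩
        exact ⟨h4, fun h => h5 h.symm, h6⟩
      · rintro ⟨h4, h5, h6⟩
        exact ⟨h4, fun h => h5 h.symm, h6⟩
    have h2 : ∀ u ∈ O, O.card - 1 ≤ (R u).card +
        (O.filter (fun w => w ≠ u ∧ ¬ G.Adj w u)).card := by
      intro u hu
      have h3 : O.erase u ⊆ (R u) ∪ (O.filter (fun w => w ≠ u ∧ ¬ G.Adj w u)) := by
        intro w hw
        have hw' := mem_erase.1 hw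
        rw [mem_union]
        by_cases h4 : G.Adj u w
        · right
          rw [mem_filter]
          refine ⟨hw'.2, hw'.1, ?_⟩
          have huX : u ∈ X := (mem_sdiff.1 hu).1
          exact fun h5 => hpair w hw'.2 u huX (fun h => hw'.1 h.symm) h4 h5
        · left
          rw [hR, mem_filter]
          exact ⟨hw'.2, hw'.1, h4⟩
      have h4 := card_le_card h3
      rw [card_erase_of_mem hu] at h4
      exact h4.trans (card_union_le _ _)
    have h4 := card_nsmul_le_sum O (fun u => (R u).card +
        (O.filter (fun w => w ≠ u ∧ ¬ G.Adj w u)).card) (O.card - 1) h2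
    rw [smul_eq_mul, sum_add_distrib, ← h1] at h4
    have h5 : ∑ u ∈ O, (R u).card = ∑ u ∈ O, (O.filter (fun w => w ≠ u ∧ ¬ G.Adj u w)).card := rfl
    omega
  have hS1 : ∑ u ∈ Z, (I u).card ≤ Z.card * t := by
    have h := sum_le_card_nsmul Z (fun u => (I u).card) t hZt
    rwa [smul_eq_mul] at h
  have hS2 : ∑ u ∈ O, (I u).card + ∑ u ∈ O, (R u).card ≤ O.card * t := by
    rw [← sum_add_distrib]
    have h := sum_le_card_nsmul O (fun u => (I u).card + (R u).card) t hOt
    rwa [smul_eq_mul] at h
  -- the arithmetic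
  obtain ⟨y, hy⟩ : ∃ y, O.card + Z.card = t + y := ⟨O.card + Z.card - t, by omega⟩
  obtain ⟨x, hx⟩ : ∃ x, O.card = t + 1 + x := ⟨O.card - (t + 1), by omega⟩
  have hy2 : O.card + Z.card - t = y := by omega
  rw [hy2] at hS
  have hx2 : O.card - 1 = t + x := by omega
  rw [hx2, hx] at hRsum
  have hyt : y ≤ t := by omega
  by_contra hcon
  push Not at hcon
  have hA1 : 2 * (B.card * y) + (t + 1 + x) * (t + x) ≤ 2 * ((t + y) * t) := by
    have e1 : O.card * t + Z.card * t = (t + y) * t := by rw [← add_mul, hy]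
    omega
  have hb6 : 4 * t ≤ B.card + y := by omega
  have hb3 : 3 * t ≤ B.card := by omega
  have hA2 : 2 * (B.card * y) + (t + 1) * t ≤ 2 * ((t + y) * t) := by nlinarith
  obtain ⟨u, hu⟩ : ∃ u, 5 * B.card + u + 1 = 19 * t := ⟨19 * t - 5 * B.card - 1, by omega⟩
  have hyu : t + (u + 1) ≤ 5 * y := by omega
  have hut : u + 1 ≤ 4 * t := by omega
  zify at *
  nlinarith

/-- a bound for the sum of the squares of the in-degrees -/
theorem sum_sq [DecidableEq V] (t : ℕ) (O : Finset V) (a : V → ℕ) (R : V → Finset V)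
    (hR : ∀ u ∈ O, R u ⊆ O) (hat : ∀ u ∈ O, a u + (R u).card ≤ t)
    (hpair : ∀ u ∈ O, ∀ w ∈ O, u ≠ w → w ∈ R u ∨ u ∈ R w) :
    2 * t * ∑ u ∈ O, a u ^ 2 + (∑ u ∈ O, a u) ^ 2 ≤
      2 * t ^ 2 * ∑ u ∈ O, a u + ∑ u ∈ O, a u ^ 2 := by
  have h1 : ∑ u ∈ O, a u ^ 2 + ∑ u ∈ O, a u * (R u).card ≤ t * ∑ u ∈ O, a u := by
    rw [← sum_add_distrib, mul_sum]
    refine sum_le_sum (fun u hu => ?_)
    have h := hat u hu
    nlinarith
  have h2 : (∑ u ∈ O, a u) ^ 2 ≤ 2 * t * ∑ u ∈ O, a u * (R u).card + ∑ u ∈ O, a u ^ 2 := by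
    have h3 : (∑ u ∈ O, a u) ^ 2 = ∑ u ∈ O, ∑ w ∈ O, a u * a w := by
      rw [sq, sum_mul_sum]
    have h4 : ∀ u ∈ O, ∀ w ∈ O, a u * a w ≤ t * (if w ∈ R u then a u else 0) +
        t * (if u ∈ R w then a w else 0) + (if u = w then a u ^ 2 else 0) := by
      intro u hu w hw
      have hu' : a u ≤ t := by have := hat u hu; omega
      have hw' : a w ≤ t := by have := hat w hw; omega
      by_cases huw : u = w
      · subst huw
        rw [if_pos rfl]
        nlinarith [Nat.zero_le (t * (if u ∈ R u then a u else 0))]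
      · rw [if_neg huw]
        rcases hpair u hu w hw huw with h | h
        · rw [if_pos h]
          have h5 : a u * a w ≤ t * a u := by nlinarith
          omega
        · rw [if_pos h]
          have h5 : a u * a w ≤ t * a w := Nat.mul_le_mul_right _ hu'
          omega
    have h5 : ∀ u ∈ O, ∑ w ∈ O, (if w ∈ R u then a u else 0) = a u * (R u).card := by
      intro u hu
      rw [← sum_filter, sum_const, smul_eq_mul, mul_comm]
      congr 2
      ext w
      rw [mem_filter]
      exact ⟨fun h => h.2, fun h => ⟨hR u hu h, h⟩⟩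
    have h6 : ∑ u ∈ O, ∑ w ∈ O, (if u ∈ R w then a w else 0) = ∑ u ∈ O, a u * (R u).card := by
      rw [sum_comm]
      exact sum_congr rfl (fun w hw => h5 w hw)
    have h7 : ∑ u ∈ O, ∑ w ∈ O, (if u = w then a u ^ 2 else 0) = ∑ u ∈ O, a u ^ 2 := by
      refine sum_congr rfl (fun u hu => ?_)
      rw [sum_ite_eq, if_pos hu]
    rw [h3]
    calc ∑ u ∈ O, ∑ w ∈ O, a u * a w
        ≤ ∑ u ∈ O, ∑ w ∈ O, (t * (if w ∈ R u then a u else 0) +
            t * (if u ∈ R w then a w else 0) + (if u = w then a u ^ 2 else 0)) :=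
          sum_le_sum (fun u hu => sum_le_sum (fun w hw => h4 u hu w hw))
      _ = t * ∑ u ∈ O, ∑ w ∈ O, (if w ∈ R u then a u else 0) +
            t * ∑ u ∈ O, ∑ w ∈ O, (if u ∈ R w then a w else 0) +
            ∑ u ∈ O, ∑ w ∈ O, (if u = w then a u ^ 2 else 0) := by
          simp only [sum_add_distrib, mul_sum]
      _ = 2 * t * ∑ u ∈ O, a u * (R u).card + ∑ u ∈ O, a u ^ 2 := by
          rw [sum_congr rfl h5, h6, h7]
          ring
  nlinarith

/-- the second moment when `x` is not small -/
theorem caseB (t x Q m : ℝ) (hx : 1 ≤ x) (ht : 1 ≤ t) (hm : 19 * t ≤ 5 * m) (h7 : 7 * x ≤ t)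
    (h20 : t ≤ 20 * x) (hQ1 : Q ≤ t * (m * x))
    (hQ2 : 2 * t * Q + (m * x) ^ 2 ≤ 2 * t ^ 2 * (m * x) + Q) :
    Q ≤ x * (((181 / 200 + 1 / (14 * x)) * (5 / 19)) * m ^ 2) := by
  have hm0 : 0 < m := by linarith
  have ht0 : 0 < t := by linarith
  have hx0 : 0 < x := by linarith
  have hmx : 0 < m * x := mul_pos hm0 hx0
  -- `Q ≤ m x (t - m x / (2 t) + 1 / 2)`
  have h1 : Q ≤ m * x * (t - m * x / (2 * t) + 1 / 2) := by
    have h2 : 2 * t * Q ≤ 2 * t * (m * x * (t - m * x / (2 * t) + 1 / 2)) := by
      have h3 : 2 * t * (m * x * (t - m * x / (2 * t) + 1 / 2)) =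
          2 * t ^ 2 * (m * x) - (m * x) ^ 2 + t * (m * x) := by
        field_simp
      rw [h3]
      linarith
    exact le_of_mul_le_mul_left h2 (by linarith)
  have h4 : 19 * t / 200 ≤ m * x / (2 * t) := by
    rw [le_div_iff₀ (by linarith)]
    nlinarith
  have h5 : (1 : ℝ) / 2 ≤ t * (1 / (14 * x)) := by
    rw [mul_one_div, le_div_iff₀ (by linarith)]
    linarith
  have h6 : t - m * x / (2 * t) + 1 / 2 ≤ t * (181 / 200 + 1 / (14 * x)) := by
    rw [mul_add]
    linarith
  have h7' : t * (181 / 200 + 1 / (14 * x)) ≤ (5 / 19 * m) * (181 / 200 + 1 / (14 * x)) :=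
    mul_le_mul_of_nonneg_right (by linarith) (by positivity)
  calc Q ≤ m * x * (t - m * x / (2 * t) + 1 / 2) := h1
    _ ≤ m * x * ((5 / 19 * m) * (181 / 200 + 1 / (14 * x))) :=
        mul_le_mul_of_nonneg_left (h6.trans h7') hmx.le
    _ = x * (((181 / 200 + 1 / (14 * x)) * (5 / 19)) * m ^ 2) := by ring

theorem main_lin [Fintype V] [DecidableEq V] (G : Digraph V) (hG : ∀ v : V, ¬ G.Adj v v)
    [∀ a b, Decidable (G.Adj a b)] (t : ℕ)
    (hmiss : ∀ u : V, (univ.filter (fun w => w ≠ u ∧ ¬ G.Adj u w)).card ≤ t)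
    (M : Finset V) (hMne : M.Nonempty) (hstar : HS G (M.card - 1) (↑M : Set V))
    (hBW : ∀ a ∈ M, ∀ b, b ∉ M → G.Adj a b → ¬ G.Adj b a)
    (hMc : Fintype.card V ≤ M.card + 2 * t) (hn : 5 * t ≤ Fintype.card V) :
    ∀ (n : ℕ) (X : Finset V), X.card = n → M ⊆ X → HS G (X.card - 1 - t) (↑X : Set V) := by
  intro n
  induction n using Nat.strong_induction_on with
  | _ n ih =>
  intro X hXn hMX
  have hMpos : 1 ≤ M.card := card_pos.2 hMne
  by_cases hpair : ∃ b ∈ X \ M, ∃ a ∈ X, a ≠ b ∧ G.Adj a b ∧ G.Adj b a
  · obtain ⟨b, hb, a, ha, hab, h1, h2⟩ := hpair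
    rw [mem_sdiff] at hb
    have h3 : (X.erase b).card = n - 1 := by
      rw [card_erase_of_mem hb.1, hXn]
    have hXpos : 1 ≤ X.card := card_pos.2 ⟨b, hb.1⟩
    have h4 := ih (n - 1) (by omega) (X.erase b) h3 (fun z hz =>
      mem_erase.2 ⟨fun h => hb.2 (h ▸ hz), hMX hz⟩)
    have h5 : HS G ((X.erase b).card - 1 - t + 1) (↑X : Set V) := by
      refine HS.add_two hG h4 a b ?_ h1 h2 ?_ ?_ ?_
      · intro h
        exact (mem_erase.1 (mem_coe.1 h)).1 rfl
      · intro z hz
        exact mem_coe.2 (mem_of_mem_erase (mem_coe.1 hz))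
      · exact mem_coe.2 ha
      · exact mem_coe.2 hb.1
    refine h5.mono _ ?_
    rw [h3]
    omega
  · push Not at hpair
    by_cases hsmall : X.card - 1 - t ≤ M.card - 1
    · exact (hstar.mono_set (fun z hz => mem_coe.2 (hMX (mem_coe.1 hz)))).mono _ hsmall
    · push Not at hsmall
      set O : Finset V := X \ M with hO
      have hOc : O.card = X.card - M.card := by
        rw [hO, card_sdiff_of_subset hMX]
      have hMle : M.card ≤ X.card := card_le_card hMX
      have hXV : X.card ≤ Fintype.card V := card_le_univ X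
      obtain ⟨x, hx⟩ : ∃ x, O.card = t + x := ⟨O.card - t, by omega⟩
      have hx1 : 1 ≤ x := by omega
      have hOt : O.card ≤ 2 * t := by omega
      have hbig : 19 * t ≤ 5 * M.card := big_root G t hmiss M X hMX hBW hMc hn hpair (by
        rw [← hO]; omega)
      have ht : 1 ≤ t := by omega
      have hMO : Disjoint M O := by
        rw [hO]
        exact disjoint_sdiff
      set mis : V → Finset V := fun u => M.filter (fun v => ¬ G.Adj u v) with hmis
      set I : V → Finset V := fun u => M.filter (fun v => G.Adj v u) with hI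
      set D : V → Finset V := fun u => O.filter (fun w => G.Adj u w) with hD
      -- (F1)
      have hF1 : ∀ u ∈ O, (mis u).card ≤ t ∧ (mis u).card + (x - 1) ≤ (D u).card ∧
          (mis u).card + ((O.erase u) \ D u).card ≤ t := by
        intro u hu
        have hsub : mis u ∪ ((O.erase u) \ D u) ⊆
            univ.filter (fun w => w ≠ u ∧ ¬ G.Adj u w) := by
          intro w hw
          rw [mem_filter]
          refine ⟨mem_univ _, ?_⟩
          rw [mem_union] at hw
          rcases hw with hw | hw
          · rw [hmis, mem_filter] at hw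
            refine ⟨?_, hw.2⟩
            intro h
            rw [h] at hw
            exact (disjoint_left.1 hMO) hw.1 hu
          · rw [mem_sdiff, mem_erase] at hw
            refine ⟨hw.1.1, ?_⟩
            intro h
            exact hw.2 (mem_filter.2 ⟨hw.1.2, h⟩)
        have hdis : Disjoint (mis u) ((O.erase u) \ D u) := by
          rw [disjoint_left]
          intro w hw hw2
          rw [hmis, mem_filter] at hw
          rw [mem_sdiff, mem_erase] at hw2
          exact (disjoint_left.1 hMO) hw.1 hw2.1.2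
        have h1 := card_le_card hsub
        rw [card_union_of_disjoint hdis] at h1
        have h2 := hmiss u
        have h3 : (O.erase u).card - (D u).card ≤ ((O.erase u) \ D u).card := by
          exact le_card_sdiff _ _
        rw [card_erase_of_mem hu] at h3
        refine ⟨by omega, by omega, by omega⟩
      -- (F2)
      have hF2 : ∀ v ∈ M, x ≤ (O.filter (fun u => G.Adj v u)).card := by
        intro v hv
        have hsub : O \ (O.filter (fun u => G.Adj v u)) ⊆
            univ.filter (fun w => w ≠ v ∧ ¬ G.Adj v w) := by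
          intro w hw
          rw [mem_sdiff] at hw
          rw [mem_filter]
          refine ⟨mem_univ _, ?_, ?_⟩
          · intro h
            rw [h] at hw
            exact (disjoint_left.1 hMO) hv hw.1
          · intro h
            exact hw.2 (mem_filter.2 ⟨hw.1, h⟩)
        have h1 := (card_le_card hsub).trans (hmiss v)
        have h2 := le_card_sdiff (O.filter (fun u => G.Adj v u)) O
        omega
      -- (F3)
      have hF3 : ∀ u ∈ O, (I u).card ≤ (mis u).card := by
        intro u hu
        apply card_le_card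
        intro v hv
        rw [hI, mem_filter] at hv
        rw [hmis, mem_filter]
        refine ⟨hv.1, ?_⟩
        have hne : v ≠ u := by
          intro h
          rw [h] at hv
          exact (disjoint_left.1 hMO) hv.1 hu
        exact hpair u hu v (hMX hv.1) hne hv.2
      -- (F4)
      have hF4 : M.card * x ≤ ∑ u ∈ O, (I u).card := by
        have h1 : ∑ v ∈ M, (O.filter (fun u => G.Adj v u)).card =
            ∑ u ∈ O, (M.filter (fun v => G.Adj v u)).card :=
          sum_card_bipartiteAbove_eq_sum_card_bipartiteBelow (fun v u => G.Adj v u)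
        rw [hI]
        rw [← h1, ← smul_eq_mul, ← sum_const]
        exact sum_le_sum hF2
      -- (F5)
      have hF5 : 7 * O.card ≤ 8 * t := by
        -- misses inside O
        have h1 : ∑ u ∈ O, ((O.erase u) \ D u).card =
            ∑ u ∈ O, (O.filter (fun w => w ≠ u ∧ ¬ G.Adj w u)).card := by
          have h2 : ∀ u ∈ O, ((O.erase u) \ D u).card =
              (O.filter (fun w => w ≠ u ∧ ¬ G.Adj u w)).card := by
            intro u _
            congr 1
            ext w
            simp only [hD, mem_sdiff, mem_erase, mem_filter]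
            constructor
            · rintro ⟨⟨h3, h4⟩, h5⟩
              exact ⟨h4, h3, fun h => h5 ⟨h4, h⟩⟩
            · rintro ⟨h3, h4, h5⟩
              exact ⟨⟨h4, h3⟩, fun h => h5 h.2⟩
          rw [sum_congr rfl h2]
          have h3 : ∑ u ∈ O, (O.filter (fun w => w ≠ u ∧ ¬ G.Adj u w)).card =
              ∑ w ∈ O, (O.filter (fun u => w ≠ u ∧ ¬ G.Adj u w)).card :=
            sum_card_bipartiteAbove_eq_sum_card_bipartiteBelow
              (s := O) (t := O) (fun u w => w ≠ u ∧ ¬ G.Adj u w)
          rw [h3]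
          refine sum_congr rfl (fun w _ => ?_)
          congr 1
          ext u
          simp only [mem_filter]
          constructor
          · rintro ⟨h4, h5, h6⟩
            exact ⟨h4, fun h => h5 h.symm, h6⟩
          · rintro ⟨h4, h5, h6⟩
            exact ⟨h4, fun h => h5 h.symm, h6⟩
        have h2 : ∀ u ∈ O, O.card - 1 ≤ ((O.erase u) \ D u).card +
            (O.filter (fun w => w ≠ u ∧ ¬ G.Adj w u)).card := by
          intro u hu
          have h3 : O.erase u ⊆ ((O.erase u) \ D u) ∪
              (O.filter (fun w => w ≠ u ∧ ¬ G.Adj w u)) := by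
            intro w hw
            have hw' := mem_erase.1 hw
            rw [mem_union]
            by_cases h4 : G.Adj u w
            · right
              rw [mem_filter]
              refine ⟨hw'.2, hw'.1, ?_⟩
              have huX : u ∈ X := by
                have := hu
                rw [hO, mem_sdiff] at this
                exact this.1
              exact fun h5 => hpair w hw'.2 u huX (fun h => hw'.1 h.symm) h4 h5
            · left
              rw [mem_sdiff]
              refine ⟨hw, fun h => h4 ?_⟩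
              rw [hD, mem_filter] at h
              exact h.2
          have h4 := card_le_card h3
          rw [card_erase_of_mem hu] at h4
          exact h4.trans (card_union_le _ _)
        have h3 : O.card * (O.card - 1) ≤ 2 * ∑ u ∈ O, ((O.erase u) \ D u).card := by
          have h4 := card_nsmul_le_sum O (fun u => ((O.erase u) \ D u).card +
            (O.filter (fun w => w ≠ u ∧ ¬ G.Adj w u)).card) (O.card - 1) h2
          rw [smul_eq_mul, sum_add_distrib, ← h1] at h4
          omega
        have h4 : ∑ u ∈ O, (I u).card + ∑ u ∈ O, ((O.erase u) \ D u).card ≤ O.card * t := by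
          rw [← sum_add_distrib]
          have h9 := sum_le_card_nsmul O (fun u => (I u).card + ((O.erase u) \ D u).card) t
            (fun u hu => (Nat.add_le_add_right (hF3 u hu) _).trans (hF1 u hu).2.2)
          rw [smul_eq_mul] at h9
          exact h9
        have h5 : 19 * t * x ≤ 5 * M.card * x := Nat.mul_le_mul_right _ hbig
        have h6 : 38 * (t * x) + 5 * (O.card * (O.card - 1)) ≤ 10 * (O.card * t) := by
          have e1 : 19 * t * x = 19 * (t * x) := by ring
          have e2 : 5 * M.card * x = 5 * (M.card * x) := by ring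
          omega
        rw [hx] at h6
        obtain ⟨y, rfl⟩ : ∃ y, x = y + 1 := ⟨x - 1, by omega⟩
        have e2 : t + (y + 1) - 1 = t + y := by omega
        rw [e2] at h6
        have h7 : 38 * (y + 1) * t ≤ 5 * (t + 1) * t := by
          have e3 : 38 * (t * (y + 1)) = 38 * (y + 1) * t := by ring
          nlinarith
        have h8 := Nat.le_of_mul_le_mul_right h7 ht
        omega
      -- the targets of the roots
      have hTex : ∀ v : V, ∃ T : Finset V, (v ∈ M → T.card = x) ∧ ∀ u ∈ T, v ∈ M ∧ u ∈ O ∧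
          G.Adj v u := by
        intro v
        by_cases hv : v ∈ M
        · obtain ⟨T, hT1, hT2⟩ := exists_subset_card_eq (hF2 v hv)
          refine ⟨T, fun _ => hT2, fun u hu => ?_⟩
          have := mem_filter.1 (hT1 hu)
          exact ⟨hv, this.1, this.2⟩
        · exact ⟨∅, fun h => absurd h hv, fun u hu => absurd hu (notMem_empty u)⟩
      choose T hT1 hT2 using hTex
      have hIT : ∀ u, (M.filter (fun v => u ∈ T v)).card ≤ t := by
        intro u
        by_cases hu : u ∈ O
        · refine le_trans (card_le_card ?_) ((hF3 u hu).trans (hF1 u hu).1)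
          intro v hv
          rw [mem_filter] at hv
          exact mem_filter.2 ⟨hv.1, (hT2 v u hv.2).2.2⟩
        · have h1 : M.filter (fun v => u ∈ T v) = ∅ := by
            rw [filter_eq_empty_iff]
            intro v _ h
            exact hu (hT2 v u h).2.1
          rw [h1, card_empty]
          exact Nat.zero_le _
      -- the in-degrees of the targets
      set a : V → ℕ := fun u => (M.filter (fun v => u ∈ T v)).card with ha
      have haI : ∀ u ∈ O, a u ≤ (I u).card := by
        intro u _
        refine card_le_card ?_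
        intro v hv
        rw [mem_filter] at hv
        exact mem_filter.2 ⟨hv.1, (hT2 v u hv.2).2.2⟩
      have ha0 : ∀ u, u ∉ O → a u = 0 := by
        intro u hu
        rw [ha]
        simp only []
        rw [card_eq_zero, filter_eq_empty_iff]
        intro v _ h
        exact hu (hT2 v u h).2.1
      have hasum : ∑ u ∈ O, a u = M.card * x := by
        have h1 : ∑ v ∈ M, (O.filter (fun u => u ∈ T v)).card =
            ∑ u ∈ O, (M.filter (fun v => u ∈ T v)).card :=
          sum_card_bipartiteAbove_eq_sum_card_bipartiteBelow (fun v u => u ∈ T v)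
        rw [ha]
        simp only []
        rw [← h1, ← smul_eq_mul, ← sum_const]
        refine sum_congr rfl (fun v hv => ?_)
        rw [← hT1 v hv]
        congr 1
        ext u
        rw [mem_filter]
        exact ⟨fun h => h.2, fun h => ⟨(hT2 v u h).2.1, h⟩⟩
      have hsq := sum_sq t O a (fun u => (O.erase u) \ D u)
        (fun u _ => sdiff_subset.trans (erase_subset _ _))
        (fun u hu => (Nat.add_le_add_right ((haI u hu).trans (hF3 u hu)) _).trans (hF1 u hu).2.2)
        (fun u hu w hw huw => by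
          by_contra hcon
          push Not at hcon
          have h1 : G.Adj u w := by
            by_contra h
            exact hcon.1 (mem_sdiff.2 ⟨mem_erase.2 ⟨huw.symm, hw⟩, fun h2 => h (mem_filter.1 h2).2⟩)
          have h2 : G.Adj w u := by
            by_contra h
            exact hcon.2 (mem_sdiff.2 ⟨mem_erase.2 ⟨huw, hu⟩, fun h2 => h (mem_filter.1 h2).2⟩)
          exact hpair w hw u (mem_sdiff.1 hu).1 huw h1 h2)
      have hsq1 : ∑ u ∈ O, a u ^ 2 ≤ t * (M.card * x) := by
        rw [← hasum, mul_sum]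
        refine sum_le_sum (fun u _ => ?_)
        have h := hIT u
        rw [sq]
        exact Nat.mul_le_mul_right _ h
      rw [hasum] at hsq
      set Q : ℕ := ∑ u ∈ O, a u ^ 2 with hQ
      have hQV : ∑ u : V, ((M.filter (fun v => u ∈ T v)).card : ℝ) ^ 2 = (Q : ℝ) := by
        rw [hQ]
        push_cast
        symm
        apply sum_subset (subset_univ O)
        intro u _ hu
        have h := ha0 u hu
        rw [h]
        norm_num
      have hxr : (1 : ℝ) ≤ x := by exact_mod_cast hx1
      have htr : (1 : ℝ) ≤ t := by exact_mod_cast ht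
      have hmr : 19 * (t : ℝ) ≤ 5 * (M.card : ℝ) := by exact_mod_cast hbig
      have hm0 : (0 : ℝ) ≤ (M.card : ℝ) := Nat.cast_nonneg _
      have hOr : (O.card : ℝ) = t + x := by rw [hx]; push_cast; ring
      have h7x : 7 * (x : ℝ) ≤ t := by
        have : 7 * x ≤ t := by omega
        exact_mod_cast this
      have hQ1 : (Q : ℝ) ≤ t * (M.card * x) := by exact_mod_cast hsq1
      have hQ2 : 2 * (t : ℝ) * Q + (M.card * x) ^ 2 ≤ 2 * (t : ℝ) ^ 2 * (M.card * x) + Q := by
        exact_mod_cast hsq
      have hexf : ∃ f : V → Fin (2 * x), x ≤ (univ.filter (fun c : Fin (2 * x) =>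
          ∑ s ∈ O.filter (fun s => f s = c ∧ ∀ w ∈ D s, f w ≠ c), (mis s).card <
            (M.filter (fun v => ∃ u ∈ T v, f u = c)).card)).card := by
        rcases Nat.lt_or_ge t (20 * x) with hcase | hcase
        · have hcr : (t : ℝ) ≤ 20 * x := by exact_mod_cast hcase.le
          refine many_good x hx1 M O mis D T (fun s hs => ⟨by
            intro h
            exact hG s (mem_filter.1 h).2, (hF1 s hs).2.1⟩) (fun v hv => hT1 v hv)
            (40 / 133) ((181 / 200 + 1 / (14 * (x : ℝ))) * (5 / 19)) ?_ ?_ (numB x hx1) hMpos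
          · rw [hQV]
            exact caseB t x Q M.card hxr htr hmr h7x hcr hQ1 hQ2
          · rw [hOr]
            linarith
        · have hcr : 20 * (x : ℝ) ≤ t := by exact_mod_cast hcase
          refine many_good x hx1 M O mis D T (fun s hs => ⟨by
            intro h
            exact hG s (mem_filter.1 h).2, (hF1 s hs).2.1⟩) (fun v hv => hT1 v hv)
            (21 / 76) (5 / 19) ?_ ?_ (numA x hx1) hMpos
          · rw [hQV]
            refine hQ1.trans ?_
            have h1 : (t : ℝ) * ((M.card : ℝ) * x) ≤ (5 / 19 * (M.card : ℝ)) * ((M.card : ℝ) * x) :=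
              mul_le_mul_of_nonneg_right (by linarith) (by positivity)
            nlinarith
          · rw [hOr]
            linarith
      obtain ⟨f, hf⟩ := hexf
      set J : Finset (Fin (2 * x)) := univ.filter (fun c : Fin (2 * x) =>
        ∑ s ∈ O.filter (fun s => f s = c ∧ ∀ w ∈ D s, f w ≠ c), (mis s).card <
        (M.filter (fun v => ∃ u ∈ T v, f u = c)).card) with hJ
      have hcl : ∀ J' : Finset (Fin (2 * x)), J' ⊆ J → HS G (M.card - 1 + J'.card)
          ((↑M : Set V) ∪ {u | u ∈ O ∧ f u ∈ J'}) := by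
        intro J'
        induction J' using Finset.induction_on with
        | empty =>
          intro _
          exact hstar.mono_set Set.subset_union_left
        | insert c J' hcJ' ihc =>
          intro hc
          have h1 := ihc ((subset_insert c J').trans hc)
          have hcJ : c ∈ J := hc (mem_insert_self c J')
          rw [hJ, mem_filter] at hcJ
          obtain ⟨A, v, hAne, hAout, hA1, hA2, hA3⟩ := class_good (G := G) M O hMO D T mis f
            (fun u w hw => by
              rw [hD, mem_filter] at hw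
              exact hw)
            (fun v _ u hu => (hT2 v u hu).2)
            (fun u v hv hvm => by
              by_contra hcon
              exact hvm (mem_filter.2 ⟨hv, hcon⟩))
            c hcJ.2
          rw [card_insert_of_notMem hcJ', ← add_assoc]
          refine HS.add hG h1 A hAne hAout v ?_ ?_ ?_
          · rintro a ⟨haA, haX⟩
            rcases haX with haM | ⟨haO, hac⟩
            · exact hA3 a haA (mem_coe.1 haM)
            · rcases hA1 a haA with h2 | h2
              · exact h2
              · exfalso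
                rw [h2.2] at hac
                exact hcJ' hac
          · rintro a (haM | ⟨haO, hac⟩)
            · exact Or.inl haM
            · exact Or.inr ⟨haO, mem_insert_of_mem hac⟩
          · intro a haA
            have key : a ∈ M ∨ (a ∈ O ∧ f a = c) := by
              rcases hA1 a haA with h2 | h2
              · rw [h2]
                exact hA2 (h2 ▸ haA)
              · exact Or.inr h2
            rcases key with h2 | h2
            · exact Or.inl (mem_coe.2 h2)
            · refine Or.inr ⟨h2.1, ?_⟩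
              rw [h2.2]
              exact mem_insert_self _ _
      have hfin := hcl J (Subset.refl _)
      have hset : ((↑M : Set V) ∪ {u | u ∈ O ∧ f u ∈ J}) ⊆ (↑X : Set V) := by
        rintro a (ha | ha)
        · exact mem_coe.2 (hMX (mem_coe.1 ha))
        · have h2 := ha.1
          rw [hO, mem_sdiff] at h2
          exact mem_coe.2 h2.1
      refine (hfin.mono_set hset).mono _ ?_
      have hf' : x ≤ J.card := hf
      omega

end HRND
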