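import Pool.Agent.Lib.MP_278fbd_co.LOD.Num

/-! Many good colour classes. -/

set_option autoImplicit false

namespace HRND

open Finset

theorem sink_sum {V : Type} [Fintype V] [DecidableEq V] (x : ℕ) (hx : 1 ≤ x) (O : Finset V)
    (mis D : V → Finset V)
    (hD : ∀ s ∈ O, s ∉ D s ∧ (mis s).card + (x - 1) ≤ (D s).card) (c : Fin (2 * x)) :
    ∑ f : V → Fin (2 * x), ∑ s ∈ O.filter (fun s => f s = c ∧ ∀ w ∈ D s, f w ≠ c),
      ((mis s).card : ℝ) ≤
      O.card * ((2 * (x : ℝ)) ^ Fintype.card V * bet x ^ (3 * x - 1)) := by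
  have hxr : (1 : ℝ) ≤ x := by exact_mod_cast hx
  set W : ℝ := (2 * (x : ℝ)) ^ Fintype.card V with hW
  have hW0 : 0 ≤ W := by rw [hW]; positivity
  have h1 : ∀ f : V → Fin (2 * x), ∑ s ∈ O.filter (fun s => f s = c ∧ ∀ w ∈ D s, f w ≠ c),
      ((mis s).card : ℝ) = ∑ s ∈ O, if (f s = c ∧ ∀ w ∈ D s, f w ≠ c) then
        ((mis s).card : ℝ) else 0 := by
    intro f
    rw [sum_filter]
  rw [sum_congr rfl (fun f _ => h1 f), sum_comm]
  have h2 : ∀ s ∈ O, ∑ f : V → Fin (2 * x), (if (f s = c ∧ ∀ w ∈ D s, f w ≠ c) then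
        ((mis s).card : ℝ) else 0) ≤ W * bet x ^ (3 * x - 1) := by
    intro s hs
    rw [← sum_filter, sum_const, nsmul_eq_mul, cnt_sink x hx (D s) s (hD s hs).1 c, mul_assoc]
    apply mul_le_mul_of_nonneg_left _ hW0
    have h3 : bet x ^ (D s).card ≤ bet x ^ ((mis s).card + (x - 1)) :=
      pow_le_pow_of_le_one (bet_nonneg x hx) (bet_le_one x hx) (hD s hs).2
    have h4 := peak x hx (mis s).card
    have h5 : 1 / (2 * (x : ℝ)) * bet x ^ (D s).card * ((mis s).card : ℝ) ≤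
        ((mis s).card : ℝ) * (1 / (2 * (x : ℝ)) * bet x ^ ((mis s).card + (x - 1))) := by
      have h6 : 1 / (2 * (x : ℝ)) * bet x ^ (D s).card * ((mis s).card : ℝ) =
          (((mis s).card : ℝ) * (1 / (2 * (x : ℝ)))) * bet x ^ (D s).card := by ring
      have h7 : ((mis s).card : ℝ) * (1 / (2 * (x : ℝ)) * bet x ^ ((mis s).card + (x - 1))) =
          (((mis s).card : ℝ) * (1 / (2 * (x : ℝ)))) * bet x ^ ((mis s).card + (x - 1)) := by
        ring
      rw [h6, h7]
      apply mul_le_mul_of_nonneg_left h3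
      positivity
    exact h5.trans h4
  refine le_trans (sum_le_sum h2) ?_
  rw [sum_const, nsmul_eq_mul]

theorem good_bound {V : Type} [Fintype V] [DecidableEq V] (x : ℕ) (hx : 1 ≤ x)
    (M O : Finset V) (mis D T : V → Finset V)
    (hD : ∀ s ∈ O, s ∉ D s ∧ (mis s).card + (x - 1) ≤ (D s).card)
    (hT : ∀ v ∈ M, (T v).card = x) (ρ θ : ℝ)
    (hI : ∑ u : V, ((M.filter (fun v => u ∈ T v)).card : ℝ) ^ 2 ≤ x * (θ * (M.card : ℝ) ^ 2))
    (hO : (O.card : ℝ) ≤ ρ * M.card)
    (hnum : 1 / 2 ≤ 3 * (1 - bet x ^ x - ρ * bet x ^ (3 * x - 1)) -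
      9 / 4 * ((1 - bet x ^ x) ^ 2 + bet x ^ x * (1 - bet x ^ x) * θ))
    (hm0 : 0 < M.card) (c : Fin (2 * x)) :
    (2 * x) ^ Fintype.card V ≤ 2 * (univ.filter (fun f : V → Fin (2 * x) =>
        ∑ s ∈ O.filter (fun s => f s = c ∧ ∀ w ∈ D s, f w ≠ c), (mis s).card <
        (M.filter (fun v => ∃ u ∈ T v, f u = c)).card)).card := by
  classical
  have hxr : (1 : ℝ) ≤ x := by exact_mod_cast hx
  set W : ℝ := (2 * (x : ℝ)) ^ Fintype.card V with hW
  have hWpos : 0 < W := by rw [hW]; positivity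
  set m : ℝ := (M.card : ℝ) with hm'
  have hmpos : 0 < m := by rw [hm']; exact_mod_cast hm0
  set q : ℝ := bet x ^ x with hq
  have hq0 : 0 ≤ q := pow_nonneg (bet_nonneg x hx) x
  have hq1 : 0 ≤ 1 - q := by
    have := pow_le_one₀ (n := x) (bet_nonneg x hx) (bet_le_one x hx)
    linarith
  set e : ℝ := bet x ^ (3 * x - 1) with he
  have he0 : 0 ≤ e := pow_nonneg (bet_nonneg x hx) _
  set σ : (V → Fin (2 * x)) → ℝ := fun f =>
    ∑ s ∈ O.filter (fun s => f s = c ∧ ∀ w ∈ D s, f w ≠ c), ((mis s).card : ℝ) with hσ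
  set N : (V → Fin (2 * x)) → ℝ := fun f =>
    ∑ v ∈ M, (if (∀ w ∈ T v, f w ≠ c) then (1 : ℝ) else 0) with hN
  have hσ0 : ∀ f, 0 ≤ σ f := fun f => sum_nonneg (fun _ _ => Nat.cast_nonneg _)
  set good : (V → Fin (2 * x)) → Prop := fun f =>
    ∑ s ∈ O.filter (fun s => f s = c ∧ ∀ w ∈ D s, f w ≠ c), (mis s).card <
        (M.filter (fun v => ∃ u ∈ T v, f u = c)).card with hgood
  have hact : ∀ f, N f + ((M.filter (fun v => ∃ u ∈ T v, f u = c)).card : ℝ) = m := by
    intro f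
    have h4 : N f = ((M.filter (fun v => ¬ ∃ u ∈ T v, f u = c)).card : ℝ) := by
      rw [hN]
      simp only []
      rw [← sum_filter, sum_const, nsmul_eq_mul, mul_one]
      congr 2
      ext v
      simp
    rw [h4, hm']
    have h5 := card_filter_add_card_filter_not (s := M) (fun v => ∃ u ∈ T v, f u = c)
    have h6 : (M.filter (fun v => ¬ ∃ u ∈ T v, f u = c)).card +
        (M.filter (fun v => ∃ u ∈ T v, f u = c)).card = M.card := by omega
    exact_mod_cast h6
  have hNf : ∀ f, N f ≤ m := by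
    intro f
    have h1 := hact f
    have h2 : (0 : ℝ) ≤ ((M.filter (fun v => ∃ u ∈ T v, f u = c)).card : ℝ) :=
      Nat.cast_nonneg _
    linarith
  -- pointwise bound
  have hpt : ∀ f : V → Fin (2 * x), 4 / 3 * m * ((m - N f) - σ f) - (m - N f) ^ 2 ≤
      if good f then 4 / 9 * m ^ 2 else 0 := by
    intro f
    have h0 := hσ0 f
    by_cases hg : good f
    · rw [if_pos hg]
      have h1 : 0 ≤ m * σ f := mul_nonneg hmpos.le h0
      nlinarith [sq_nonneg (2 / 3 * m - (m - N f))]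
    · rw [if_neg hg]
      have h1 : ¬ (∑ s ∈ O.filter (fun s => f s = c ∧ ∀ w ∈ D s, f w ≠ c), (mis s).card <
        (M.filter (fun v => ∃ u ∈ T v, f u = c)).card) := hg
      rw [not_lt] at h1
      have h2 : ((M.filter (fun v => ∃ u ∈ T v, f u = c)).card : ℝ) ≤ σ f := by
        show ((M.filter (fun v => ∃ u ∈ T v, f u = c)).card : ℝ) ≤
          ∑ s ∈ O.filter (fun s => f s = c ∧ ∀ w ∈ D s, f w ≠ c), ((mis s).card : ℝ)
        exact_mod_cast h1
      have h3 : (m - N f) - σ f ≤ 0 := by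
        have := hact f
        linarith
      have h4 : m * ((m - N f) - σ f) ≤ 0 := mul_nonpos_of_nonneg_of_nonpos hmpos.le h3
      have h5 := sq_nonneg (m - N f)
      linarith
  have hWc : ((univ : Finset (V → Fin (2 * x))).card : ℝ) = W := by
    rw [card_univ, Fintype.card_fun, Fintype.card_fin, hW]
    push_cast
    rfl
  have hS1 : ∑ f, N f = W * (m * q) := first_moment x hx M T hT c
  have hS2 : ∑ f, (N f - m * q) ^ 2 ≤ W * (q * (1 - q) * (θ * m ^ 2)) :=
    var_bound x hx M T hT (θ * m ^ 2) hI c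
  have hS3 : ∑ f, σ f ≤ O.card * (W * e) := sink_sum x hx O mis D hD c
  have hsq : ∑ f, (m - N f) ^ 2 = W * (m ^ 2 * (1 - q) ^ 2) + ∑ f, (N f - m * q) ^ 2 := by
    have h1 : ∀ f, (m - N f) ^ 2 = (m ^ 2 * (1 - q) ^ 2 + 2 * m * (1 - q) * (m * q)) +
        (N f - m * q) ^ 2 - 2 * m * (1 - q) * N f := by
      intro f
      ring
    rw [sum_congr rfl (fun f _ => h1 f), sum_sub_distrib, sum_add_distrib, ← mul_sum, hS1,
      sum_const, nsmul_eq_mul, hWc]
    ring
  have hlin : ∑ f, ((m - N f) - σ f) = W * m - W * (m * q) - ∑ f, σ f := by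
    rw [sum_sub_distrib, sum_sub_distrib, hS1, sum_const, nsmul_eq_mul, hWc]
  have htotal : 4 / 3 * m * (W * m - W * (m * q) - ∑ f, σ f) -
      (W * (m ^ 2 * (1 - q) ^ 2) + ∑ f, (N f - m * q) ^ 2) ≤
      4 / 9 * m ^ 2 * ((univ.filter (fun f => good f)).card : ℝ) := by
    rw [← hlin, ← hsq, mul_sum, ← sum_sub_distrib]
    refine le_trans (sum_le_sum (fun f _ => hpt f)) ?_
    rw [← sum_filter, sum_const, nsmul_eq_mul]
    linarith
  have hOe : (O.card : ℝ) * (W * e) ≤ (ρ * m) * (W * e) :=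
    mul_le_mul_of_nonneg_right hO (mul_nonneg hWpos.le he0)
  set F : ℝ := 3 * (1 - q - ρ * e) - 9 / 4 * ((1 - q) ^ 2 + q * (1 - q) * θ) with hF
  have hkey : 4 / 9 * m ^ 2 * (W * F) ≤
      4 / 9 * m ^ 2 * ((univ.filter (fun f => good f)).card : ℝ) := by
    refine le_trans ?_ htotal
    have h1 : ∑ f, σ f ≤ (ρ * m) * (W * e) := hS3.trans hOe
    have h2 : ∑ f, (N f - m * q) ^ 2 ≤ W * (q * (1 - q) * (θ * m ^ 2)) := hS2
    have h3 : 4 / 3 * m * (W * m - W * (m * q) - (ρ * m) * (W * e)) ≤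
        4 / 3 * m * (W * m - W * (m * q) - ∑ f, σ f) := by
      apply mul_le_mul_of_nonneg_left (by linarith) (by positivity)
    have h4 : 4 / 9 * m ^ 2 * (W * F) =
        4 / 3 * m * (W * m - W * (m * q) - (ρ * m) * (W * e)) -
        (W * (m ^ 2 * (1 - q) ^ 2) + W * (q * (1 - q) * (θ * m ^ 2))) := by
      rw [hF]
      ring
    rw [h4]
    linarith
  have hG : W * F ≤ ((univ.filter (fun f => good f)).card : ℝ) := by
    have h1 : 0 < 4 / 9 * m ^ 2 := by positivity
    exact le_of_mul_le_mul_left hkey h1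
  have hfin : W ≤ 2 * ((univ.filter (fun f => good f)).card : ℝ) := by
    have h1 : W * (1 / 2) ≤ W * F := mul_le_mul_of_nonneg_left hnum hWpos.le
    linarith
  have hWn : W = (((2 * x) ^ Fintype.card V : ℕ) : ℝ) := by
    rw [hW]
    push_cast
    rfl
  rw [hWn] at hfin
  exact_mod_cast hfin

/-- some colouring with `2 x` colours has at least `x` good classes -/
theorem many_good {V : Type} [Fintype V] [DecidableEq V] (x : ℕ) (hx : 1 ≤ x)
    (M O : Finset V) (mis D T : V → Finset V)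
    (hD : ∀ s ∈ O, s ∉ D s ∧ (mis s).card + (x - 1) ≤ (D s).card)
    (hT : ∀ v ∈ M, (T v).card = x) (ρ θ : ℝ)
    (hI : ∑ u : V, ((M.filter (fun v => u ∈ T v)).card : ℝ) ^ 2 ≤ x * (θ * (M.card : ℝ) ^ 2))
    (hO : (O.card : ℝ) ≤ ρ * M.card)
    (hnum : 1 / 2 ≤ 3 * (1 - bet x ^ x - ρ * bet x ^ (3 * x - 1)) -
      9 / 4 * ((1 - bet x ^ x) ^ 2 + bet x ^ x * (1 - bet x ^ x) * θ))
    (hm0 : 0 < M.card) :
    ∃ f : V → Fin (2 * x), x ≤ (univ.filter (fun c : Fin (2 * x) =>
      ∑ s ∈ O.filter (fun s => f s = c ∧ ∀ w ∈ D s, f w ≠ c), (mis s).card <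
        (M.filter (fun v => ∃ u ∈ T v, f u = c)).card)).card := by
  classical
  by_contra hcon
  push Not at hcon
  set good : (V → Fin (2 * x)) → Fin (2 * x) → Prop := fun f c =>
    ∑ s ∈ O.filter (fun s => f s = c ∧ ∀ w ∈ D s, f w ≠ c), (mis s).card <
        (M.filter (fun v => ∃ u ∈ T v, f u = c)).card with hgood
  have h1 : ∑ f : V → Fin (2 * x), (univ.filter (fun c => good f c)).card =
      ∑ c : Fin (2 * x), (univ.filter (fun f => good f c)).card :=
    sum_card_bipartiteAbove_eq_sum_card_bipartiteBelow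
      (s := (univ : Finset (V → Fin (2 * x)))) (t := (univ : Finset (Fin (2 * x))))
      (fun f c => good f c)
  have hWc : (univ : Finset (V → Fin (2 * x))).card = (2 * x) ^ Fintype.card V := by
    rw [card_univ, Fintype.card_fun, Fintype.card_fin]
  have h2 : ∀ c : Fin (2 * x), (2 * x) ^ Fintype.card V ≤
      2 * (univ.filter (fun f => good f c)).card := fun c =>
    good_bound x hx M O mis D T hD hT ρ θ hI hO hnum hm0 c
  have h3 : 2 * x * (2 * x) ^ Fintype.card V ≤
      2 * ∑ c : Fin (2 * x), (univ.filter (fun f => good f c)).card := by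
    rw [mul_sum]
    have h4 := card_nsmul_le_sum (univ : Finset (Fin (2 * x)))
      (fun c => 2 * (univ.filter (fun f => good f c)).card) ((2 * x) ^ Fintype.card V)
      (fun c _ => h2 c)
    rw [card_univ, Fintype.card_fin, smul_eq_mul] at h4
    exact h4
  have h4 : ∑ f : V → Fin (2 * x), (univ.filter (fun c => good f c)).card ≤
      (2 * x) ^ Fintype.card V * (x - 1) := by
    have h5 := sum_le_card_nsmul (univ : Finset (V → Fin (2 * x)))
      (fun f => (univ.filter (fun c => good f c)).card) (x - 1) (fun f _ => by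
        have h6 := hcon f
        have h7 : (univ.filter (fun c => good f c)).card < x := h6
        omega)
    rw [hWc, smul_eq_mul] at h5
    exact h5
  rw [h1] at h4
  have hpos : 0 < (2 * x) ^ Fintype.card V := Nat.pow_pos (by omega)
  have h5 : x * (2 * x) ^ Fintype.card V ≤ (x - 1) * (2 * x) ^ Fintype.card V := by
    have h6 : 2 * x * (2 * x) ^ Fintype.card V = 2 * (x * (2 * x) ^ Fintype.card V) := by ring
    have h7 : (2 * x) ^ Fintype.card V * (x - 1) = (x - 1) * (2 * x) ^ Fintype.card V := by ring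
    rw [h6] at h3
    rw [h7] at h4
    omega
  have h6 := Nat.le_of_mul_le_mul_right h5 hpos
  omega

end HRND
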