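import Pool.Agent.Lib.MP_278fbd_co.LOD.Prob

/-! The numerical inequality. -/

set_option autoImplicit false

namespace HRND

theorem bet_lower (x : ℕ) (hx : 1 ≤ x) : 1 / 2 ≤ bet x ^ x := by
  have h : (1 : ℝ) ≤ x := by exact_mod_cast hx
  have h1 := one_add_mul_le_pow (a := -(1 / (2 * (x : ℝ)))) (by
    have : 1 / (2 * (x : ℝ)) ≤ 1 := by
      rw [div_le_one (by linarith)]
      linarith
    linarith) x
  have h2 : 1 + -(1 / (2 * (x : ℝ))) = bet x := by
    unfold bet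
    ring
  rw [h2] at h1
  have h3 : (x : ℝ) * -(1 / (2 * (x : ℝ))) = -(1 / 2) := by
    field_simp
  rw [h3] at h1
  linarith

theorem bet_three (x : ℕ) (hx : 64 ≤ x) : bet x ^ (3 * x - 1) ≤ 128 / 127 * (bet x ^ x) ^ 3 := by
  have hxr : (64 : ℝ) ≤ x := by exact_mod_cast hx
  have hb0 := bet_nonneg x (by omega)
  have h5 : (bet x ^ x) ^ 3 = bet x ^ (3 * x - 1) * bet x := by
    rw [← pow_mul, ← pow_succ]
    congr 1
    omega
  rw [h5]
  have h6 : 127 / 128 ≤ bet x := by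
    unfold bet
    have h7 : 1 / (2 * (x : ℝ)) ≤ 1 / 128 := by
      apply one_div_le_one_div_of_le <;> linarith
    linarith
  have h8 : 0 ≤ bet x ^ (3 * x - 1) := pow_nonneg hb0 _
  nlinarith

theorem num_polyA (q : ℝ) (h1 : 1 / 2 ≤ q) (h2 : q ≤ 60654 / 100000) :
    1 / 2 ≤ 3 * (1 - q - 21 / 76 * (128 / 127 * q ^ 3)) -
      9 / 4 * ((1 - q) ^ 2 + q * (1 - q) * (5 / 19)) := by
  have h3 : q ^ 3 ≤ 60654 / 100000 * q ^ 2 := by nlinarith [sq_nonneg q]
  nlinarith [mul_nonneg (sub_nonneg.2 h1) (sub_nonneg.2 h2), sq_nonneg q]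

theorem num_polyB (q : ℝ) (h1 : 1 / 2 ≤ q) (h2 : q ≤ 60654 / 100000) :
    1 / 2 ≤ 3 * (1 - q - 40 / 133 * (128 / 127 * q ^ 3)) -
      9 / 4 * ((1 - q) ^ 2 + q * (1 - q) * ((181 / 200 + 1 / 896) * (5 / 19))) := by
  have h3 : q ^ 3 ≤ 60654 / 100000 * q ^ 2 := by nlinarith [sq_nonneg q]
  nlinarith [mul_nonneg (sub_nonneg.2 h1) (sub_nonneg.2 h2), sq_nonneg q]

theorem numA (x : ℕ) (hx : 1 ≤ x) :
    1 / 2 ≤ 3 * (1 - bet x ^ x - 21 / 76 * bet x ^ (3 * x - 1)) -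
      9 / 4 * ((1 - bet x ^ x) ^ 2 + bet x ^ x * (1 - bet x ^ x) * (5 / 19)) := by
  rcases Nat.lt_or_ge x 64 with hlt | hge
  · interval_cases x <;> norm_num [bet]
  · have h1 := bet_lower x hx
    have h2 := q_bound x hx
    have h3 := num_polyA (bet x ^ x) h1 h2
    have h4 := bet_three x hge
    linarith

theorem numB (x : ℕ) (hx : 1 ≤ x) :
    1 / 2 ≤ 3 * (1 - bet x ^ x - 40 / 133 * bet x ^ (3 * x - 1)) -
      9 / 4 * ((1 - bet x ^ x) ^ 2 + bet x ^ x * (1 - bet x ^ x) *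
        ((181 / 200 + 1 / (14 * (x : ℝ))) * (5 / 19))) := by
  rcases Nat.lt_or_ge x 64 with hlt | hge
  · interval_cases x <;> norm_num [bet]
  · have h1 := bet_lower x hx
    have h2 := q_bound x hx
    have h3 := num_polyB (bet x ^ x) h1 h2
    have h4 := bet_three x hge
    have hxr : (64 : ℝ) ≤ x := by exact_mod_cast hge
    have h5 : 1 / (14 * (x : ℝ)) ≤ 1 / 896 := by
      apply one_div_le_one_div_of_le <;> linarith
    have h6 : 0 ≤ bet x ^ x * (1 - bet x ^ x) := mul_nonneg (by linarith) (by linarith)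
    have h7 : bet x ^ x * (1 - bet x ^ x) * ((181 / 200 + 1 / (14 * (x : ℝ))) * (5 / 19)) ≤
        bet x ^ x * (1 - bet x ^ x) * ((181 / 200 + 1 / 896) * (5 / 19)) := by
      apply mul_le_mul_of_nonneg_left _ h6
      linarith
    linarith

end HRND
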