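import Pool.Agent.Lib.MP_278fbd_co.LOD.Col

/-! First and second moments over all colourings with `2 x` colours. -/

set_option autoImplicit false

namespace HRND

open Finset

theorem card_sink {V : Type} [Fintype V] [DecidableEq V] (x : ℕ) (S : Finset V) (u : V)
    (hu : u ∉ S) (c : Fin x) :
    (univ.filter (fun f : V → Fin x => f u = c ∧ ∀ w ∈ S, f w ≠ c)).card =
      (x - 1) ^ S.card * x ^ (Fintype.card V - 1 - S.card) := by
  have h : univ.filter (fun f : V → Fin x => f u = c ∧ ∀ w ∈ S, f w ≠ c) =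
      Fintype.piFinset (fun y : V =>
        if y = u then ({c} : Finset (Fin x)) else
          if y ∈ S then (univ.erase c : Finset (Fin x)) else univ) := by
    ext f
    simp only [mem_filter, mem_univ, true_and, Fintype.mem_piFinset]
    constructor
    · rintro ⟨h1, h2⟩ y
      by_cases hy : y = u
      · rw [if_pos hy, mem_singleton, hy]
        exact h1
      · rw [if_neg hy]
        by_cases hyS : y ∈ S
        · rw [if_pos hyS, mem_erase]
          exact ⟨h2 y hyS, mem_univ _⟩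
        · rw [if_neg hyS]
          exact mem_univ _
    · intro hf
      refine ⟨?_, ?_⟩
      · have h1 := hf u
        rw [if_pos rfl, mem_singleton] at h1
        exact h1
      · intro w hw
        have h1 := hf w
        have hne : w ≠ u := fun h => hu (h ▸ hw)
        rw [if_neg hne, if_pos hw, mem_erase] at h1
        exact h1.1
  rw [h, Fintype.card_piFinset, ← mul_prod_erase univ _ (mem_univ u)]
  rw [if_pos rfl, card_singleton, one_mul]
  have h2 : ∀ y ∈ univ.erase u, (if y = u then ({c} : Finset (Fin x)) else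
        if y ∈ S then (univ.erase c : Finset (Fin x)) else univ).card =
      if y ∈ S then x - 1 else x := by
    intro y hy
    rw [if_neg (ne_of_mem_erase hy)]
    split_ifs with hy
    · rw [card_erase_of_mem (mem_univ _), card_univ, Fintype.card_fin]
    · rw [card_univ, Fintype.card_fin]
  rw [prod_congr rfl h2, prod_ite, prod_const, prod_const]
  have h3 : ((univ.erase u).filter (fun y : V => y ∈ S)) = S := by
    ext y
    simp only [mem_filter, mem_erase, mem_univ, and_true]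
    constructor
    · exact fun h => h.2
    · exact fun h => ⟨fun h1 => hu (h1 ▸ h), h⟩
  have h4 : ((univ.erase u).filter (fun y : V => y ∉ S)).card =
      Fintype.card V - 1 - S.card := by
    have h5 : ((univ.erase u).filter (fun y : V => y ∉ S)) = (univ.erase u) \ S := by
      ext y
      simp
    rw [h5, card_sdiff_of_subset, card_erase_of_mem (mem_univ _), card_univ]
    intro y hy
    exact mem_erase.2 ⟨fun h1 => hu (h1 ▸ hy), mem_univ _⟩
  rw [h3, h4]

/-- `β = 1 - 1 / (2 x)` -/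
noncomputable def bet (x : ℕ) : ℝ := 1 - 1 / (2 * (x : ℝ))

theorem bet_nonneg (x : ℕ) (hx : 1 ≤ x) : 0 ≤ bet x := by
  have h : (1 : ℝ) ≤ x := by exact_mod_cast hx
  unfold bet
  rw [sub_nonneg, div_le_one (by linarith)]
  linarith

theorem bet_le_one (x : ℕ) (hx : 1 ≤ x) : bet x ≤ 1 := by
  have h : (1 : ℝ) ≤ x := by exact_mod_cast hx
  unfold bet
  have : 0 ≤ 1 / (2 * (x : ℝ)) := by positivity
  linarith

theorem bet_mul (x : ℕ) (hx : 1 ≤ x) : ((2 * x - 1 : ℕ) : ℝ) = (2 * (x : ℝ)) * bet x := by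
  have h : (1 : ℝ) ≤ x := by exact_mod_cast hx
  rw [Nat.cast_sub (by omega)]
  unfold bet
  push_cast
  field_simp

theorem cnt_avoid {V : Type} [Fintype V] [DecidableEq V] (x : ℕ) (hx : 1 ≤ x) (S : Finset V)
    (c : Fin (2 * x)) :
    ((univ.filter (fun f : V → Fin (2 * x) => ∀ w ∈ S, f w ≠ c)).card : ℝ) =
      (2 * (x : ℝ)) ^ Fintype.card V * bet x ^ S.card := by
  rw [card_avoid]
  have hS : S.card ≤ Fintype.card V := card_le_univ _
  push_cast
  rw [bet_mul x hx, mul_pow]
  have h1 : (2 * (x : ℝ)) ^ Fintype.card V =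
      (2 * (x : ℝ)) ^ S.card * (2 * (x : ℝ)) ^ (Fintype.card V - S.card) := by
    rw [← pow_add, Nat.add_sub_cancel' hS]
  rw [h1]
  ring

theorem cnt_sink {V : Type} [Fintype V] [DecidableEq V] (x : ℕ) (hx : 1 ≤ x) (S : Finset V)
    (u : V) (hu : u ∉ S) (c : Fin (2 * x)) :
    ((univ.filter (fun f : V → Fin (2 * x) => f u = c ∧ ∀ w ∈ S, f w ≠ c)).card : ℝ) =
      (2 * (x : ℝ)) ^ Fintype.card V * (1 / (2 * (x : ℝ)) * bet x ^ S.card) := by
  rw [card_sink (2 * x) S u hu c]
  have hlt : S.card < Fintype.card V := by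
    have h6 : (insert u S).card ≤ Fintype.card V := card_le_univ _
    rw [card_insert_of_notMem hu] at h6
    omega
  have hx0 : (x : ℝ) ≠ 0 := by
    have : (1 : ℝ) ≤ x := by exact_mod_cast hx
    linarith
  push_cast
  rw [bet_mul x hx, mul_pow]
  have h1 : (2 * (x : ℝ)) ^ Fintype.card V =
      (2 * (x : ℝ)) ^ S.card * ((2 * (x : ℝ)) ^ (Fintype.card V - 1 - S.card) * (2 * x)) := by
    rw [← pow_succ, ← pow_add]
    congr 1
    omega
  rw [h1]
  field_simp

/-- `p z (1 - p)^(z + x - 1) ≤ (1 - p)^(3 x - 1)` for `p = 1/(2x)` -/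
theorem peak (x : ℕ) (hx : 1 ≤ x) (z : ℕ) :
    (z : ℝ) * (1 / (2 * (x : ℝ)) * bet x ^ (z + (x - 1))) ≤ bet x ^ (3 * x - 1) := by
  have h : (1 : ℝ) ≤ x := by exact_mod_cast hx
  set p : ℝ := 1 / (2 * (x : ℝ)) with hp
  have hp0 : 0 ≤ p := by rw [hp]; positivity
  have hp1 : p ≤ 1 := by
    rw [hp, div_le_one (by linarith)]
    linarith
  have hb : bet x = 1 - p := rfl
  have hb0 := bet_nonneg x hx
  have h2x : (2 * (x : ℝ)) * p = 1 := by
    rw [hp]
    field_simp
  have key : (z : ℝ) * p * bet x ^ z ≤ bet x ^ (2 * x) := by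
    rcases Nat.le_total (2 * x) z with hz | hz
    · obtain ⟨j, rfl⟩ := Nat.exists_eq_add_of_le hz
      have h1 : ((2 * x + j : ℕ) : ℝ) * p = 1 + j * p := by
        push_cast
        rw [add_mul, h2x]
      have h2 : 1 + (j : ℝ) * p ≤ (1 + p) ^ j := one_add_mul_le_pow (by linarith) j
      have h3 : (1 + p) ^ j * bet x ^ j ≤ 1 := by
        rw [← mul_pow, hb]
        apply pow_le_one₀
        · apply mul_nonneg <;> linarith
        · nlinarith
      have h4 : 0 ≤ bet x ^ j := pow_nonneg hb0 j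
      have h5 : (1 + (j : ℝ) * p) * bet x ^ j ≤ 1 := by
        refine le_trans (mul_le_mul_of_nonneg_right h2 h4) h3
      calc ((2 * x + j : ℕ) : ℝ) * p * bet x ^ (2 * x + j)
          = bet x ^ (2 * x) * ((1 + (j : ℝ) * p) * bet x ^ j) := by
            rw [h1, pow_add]
            ring
        _ ≤ bet x ^ (2 * x) * 1 := mul_le_mul_of_nonneg_left h5 (pow_nonneg hb0 _)
        _ = bet x ^ (2 * x) := mul_one _
    · obtain ⟨j, hj⟩ := Nat.exists_eq_add_of_le hz
      have h1 : (z : ℝ) * p = 1 + j * (-p) := by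
        have h2 : ((2 * x : ℕ) : ℝ) = z + j := by exact_mod_cast hj
        push_cast at h2
        have h3 : (z : ℝ) = 2 * x - j := by linarith
        rw [h3, sub_mul, h2x]
        ring
      have h2 : 1 + (j : ℝ) * (-p) ≤ bet x ^ j := by
        have h3 := one_add_mul_le_pow (a := -p) (by linarith) j
        have h4 : 1 + -p = bet x := by
          rw [hb]
          ring
        rw [h4] at h3
        exact h3
      calc (z : ℝ) * p * bet x ^ z ≤ bet x ^ j * bet x ^ z := by
            rw [h1]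
            exact mul_le_mul_of_nonneg_right h2 (pow_nonneg hb0 _)
        _ = bet x ^ (2 * x) := by
            rw [← pow_add, hj]
            congr 1
            ring
  calc (z : ℝ) * (p * bet x ^ (z + (x - 1))) = (z : ℝ) * p * bet x ^ z * bet x ^ (x - 1) := by
        rw [pow_add]
        ring
    _ ≤ bet x ^ (2 * x) * bet x ^ (x - 1) :=
        mul_le_mul_of_nonneg_right key (pow_nonneg hb0 _)
    _ = bet x ^ (3 * x - 1) := by
        rw [← pow_add]
        congr 1
        omega

/-- convexity: `β^(x-k) - β^x ≤ (k/x) (1 - β^x)` -/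
theorem conv (x k : ℕ) (hx : 1 ≤ x) (hk : k ≤ x) :
    bet x ^ (x - k) - bet x ^ x ≤ (k / (x : ℝ)) * (1 - bet x ^ x) := by
  have h : (1 : ℝ) ≤ x := by exact_mod_cast hx
  obtain ⟨j, rfl⟩ := Nat.exists_eq_add_of_le hk
  set x' : ℕ := k + j with hx'
  set p : ℝ := 1 / (2 * (x' : ℝ)) with hp
  have hp0 : 0 ≤ p := by rw [hp]; positivity
  have hp1 : p ≤ 1 := by
    rw [hp, div_le_one (by linarith)]
    linarith
  have hb : bet x' = 1 - p := rfl
  have hb0 := bet_nonneg x' hx
  have hjk : x' - k = j := by omega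
  rw [hjk]
  set a : ℝ := bet x' ^ j with ha
  have ha0 : 0 ≤ a := pow_nonneg hb0 j
  have hbx : bet x' ^ x' = a * bet x' ^ k := by
    rw [ha, ← pow_add]
    congr 1
    omega
  rw [hbx]
  set b : ℝ := bet x' ^ k with hbk
  have h1 : 1 - (k : ℝ) * p ≤ b := by
    have h3 := one_add_mul_le_pow (a := -p) (by linarith) k
    have h4 : 1 + -p = bet x' := by
      rw [hb]
      ring
    rw [h4] at h3
    linarith
  have h2 : a * (1 + (j : ℝ) * p) ≤ 1 := by
    have h3 : 1 + (j : ℝ) * p ≤ (1 + p) ^ j := one_add_mul_le_pow (by linarith) j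
    have h4 : (1 + p) ^ j * bet x' ^ j ≤ 1 := by
      rw [← mul_pow, hb]
      apply pow_le_one₀
      · apply mul_nonneg <;> linarith
      · nlinarith
    calc a * (1 + (j : ℝ) * p) ≤ a * (1 + p) ^ j := mul_le_mul_of_nonneg_left h3 ha0
      _ = (1 + p) ^ j * bet x' ^ j := by rw [ha]; ring
      _ ≤ 1 := h4
  have hxk : (x' : ℝ) = k + j := by
    rw [hx']
    push_cast
    ring
  have hx0 : (0 : ℝ) < x' := by linarith
  have hgoal : (x' : ℝ) * (a - a * b) ≤ k * (1 - a * b) := by
    have hj0 : (0 : ℝ) ≤ j := Nat.cast_nonneg j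
    have hk0 : (0 : ℝ) ≤ k := Nat.cast_nonneg k
    -- x a - k ≤ j a b
    have h5 : (j : ℝ) * a * (1 - k * p) ≤ j * a * b :=
      mul_le_mul_of_nonneg_left h1 (mul_nonneg hj0 ha0)
    have h6 : (k : ℝ) * (a * (1 + j * p)) ≤ k * 1 := mul_le_mul_of_nonneg_left h2 hk0
    rw [hxk]
    nlinarith
  rw [div_mul_eq_mul_div, le_div_iff₀ hx0]
  linarith

/-- the bound for `q = (1 - 1/(2x))^x` -/
theorem q_bound (x : ℕ) (hx : 1 ≤ x) : bet x ^ x ≤ 60654 / 100000 := by
  have h : (1 : ℝ) ≤ x := by exact_mod_cast hx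
  set p : ℝ := 1 / (2 * (x : ℝ)) with hp
  have hb : bet x ≤ Real.exp (-p) := by
    have h1 := Real.add_one_le_exp (-p)
    have h2 : bet x = -p + 1 := by
      unfold bet
      rw [hp]
      ring
    rw [h2]
    exact h1
  have h3 : (bet x ^ x) ^ 2 ≤ Real.exp (-1) := by
    have h4 := pow_le_pow_left₀ (bet_nonneg x hx) hb (x * 2)
    rw [← Real.exp_nat_mul] at h4
    rw [← pow_mul]
    have h5 : ((x * 2 : ℕ) : ℝ) * (-p) = -1 := by
      rw [hp]
      push_cast
      field_simp
    rw [h5] at h4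
    exact h4
  have h6 : Real.exp (-1) ≤ 36788 / 100000 := by
    rw [Real.exp_neg, inv_le_comm₀ (Real.exp_pos _) (by norm_num)]
    have := Real.exp_one_gt_d9
    norm_num
    linarith
  have h7 : 0 ≤ bet x ^ x := pow_nonneg (bet_nonneg x hx) x
  nlinarith

theorem var_bound {V : Type} [Fintype V] [DecidableEq V] (x : ℕ) (hx : 1 ≤ x) (M : Finset V)
    (T : V → Finset V) (hT : ∀ v ∈ M, (T v).card = x) (S : ℝ)
    (hI : ∑ u : V, ((M.filter (fun v => u ∈ T v)).card : ℝ) ^ 2 ≤ x * S) (c : Fin (2 * x)) :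
    ∑ f : V → Fin (2 * x), ((∑ v ∈ M, (if (∀ w ∈ T v, f w ≠ c) then (1 : ℝ) else 0)) -
      M.card * bet x ^ x) ^ 2 ≤
      (2 * (x : ℝ)) ^ Fintype.card V * (bet x ^ x * (1 - bet x ^ x) * S) := by
  set q : ℝ := bet x ^ x with hq
  set W : ℝ := (2 * (x : ℝ)) ^ Fintype.card V with hW
  have hxr : (1 : ℝ) ≤ x := by exact_mod_cast hx
  have hq0 : 0 ≤ q := pow_nonneg (bet_nonneg x hx) x
  have hW0 : 0 ≤ W := by rw [hW]; positivity
  set e : V → (V → Fin (2 * x)) → ℝ := fun v f => if (∀ w ∈ T v, f w ≠ c) then (1 : ℝ) else 0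
    with he
  have hWc : ((univ : Finset (V → Fin (2 * x))).card : ℝ) = W := by
    rw [card_univ, Fintype.card_fun, Fintype.card_fin, hW]
    push_cast
    rfl
  have hE1 : ∀ v ∈ M, ∑ f : V → Fin (2 * x), e v f = W * q := by
    intro v hv
    rw [he]
    simp only []
    rw [← sum_filter, sum_const, nsmul_eq_mul, mul_one, cnt_avoid x hx, hT v hv]
  have hE2 : ∀ v ∈ M, ∀ v' ∈ M, ∑ f : V → Fin (2 * x), e v f * e v' f =
      W * bet x ^ (T v ∪ T v').card := by
    intro v _ v' _
    rw [← cnt_avoid x hx (T v ∪ T v') c]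
    have h1 : ∀ f : V → Fin (2 * x), e v f * e v' f =
        if (∀ w ∈ T v ∪ T v', f w ≠ c) then (1 : ℝ) else 0 := by
      intro f
      rw [he]
      simp only [mul_ite, mul_one, mul_zero]
      by_cases h2 : ∀ w ∈ T v, f w ≠ c
      · by_cases h3 : ∀ w ∈ T v', f w ≠ c
        · rw [if_pos h3, if_pos h2, if_pos]
          intro w hw
          rcases mem_union.1 hw with h | h
          · exact h2 w h
          · exact h3 w h
        · rw [if_neg h3, if_neg]
          intro h4
          exact h3 (fun w hw => h4 w (mem_union_right _ hw))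
      · have h4 : ¬ ∀ w ∈ T v ∪ T v', f w ≠ c :=
          fun h4 => h2 (fun w hw => h4 w (mem_union_left _ hw))
        rw [if_neg h4, if_neg h2]
        split_ifs <;> rfl
    rw [sum_congr rfl (fun f _ => h1 f), ← sum_filter, sum_const]
    simp
  have hpair : ∀ v ∈ M, ∀ v' ∈ M, ∑ f : V → Fin (2 * x), (e v f - q) * (e v' f - q) ≤
      W * (q * ((T v ∩ T v').card / (x : ℝ) * (1 - q))) := by
    intro v hv v' hv'
    have h1 : ∑ f : V → Fin (2 * x), (e v f - q) * (e v' f - q) =
        W * (bet x ^ (T v ∪ T v').card - q * q) := by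
      have h2 : ∀ f : V → Fin (2 * x), (e v f - q) * (e v' f - q) =
          e v f * e v' f - q * e v f - q * e v' f + q * q := by
        intro f
        ring
      rw [sum_congr rfl (fun f _ => h2 f), sum_add_distrib, sum_sub_distrib, sum_sub_distrib,
        ← mul_sum, ← mul_sum, hE1 v hv, hE1 v' hv', hE2 v hv v' hv', sum_const, nsmul_eq_mul, hWc]
      ring
    rw [h1]
    apply mul_le_mul_of_nonneg_left _ hW0
    have h3 : (T v ∪ T v').card + (T v ∩ T v').card = 2 * x := by
      rw [card_union_add_card_inter, hT v hv, hT v' hv']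
      ring
    set k := (T v ∩ T v').card with hk
    have hkx : k ≤ x := by
      rw [← hT v hv]
      exact card_le_card inter_subset_left
    have h4 : bet x ^ (T v ∪ T v').card = q * bet x ^ (x - k) := by
      rw [hq, ← pow_add]
      congr 1
      omega
    have h5 := conv x k hx hkx
    calc bet x ^ (T v ∪ T v').card - q * q
        = q * (bet x ^ (x - k) - bet x ^ x) := by rw [h4, hq]; ring
      _ ≤ q * (k / (x : ℝ) * (1 - q)) := mul_le_mul_of_nonneg_left h5 hq0
  have hsum : ∑ f : V → Fin (2 * x), ((∑ v ∈ M, e v f) - M.card * q) ^ 2 =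
      ∑ v ∈ M, ∑ v' ∈ M, ∑ f : V → Fin (2 * x), (e v f - q) * (e v' f - q) := by
    have h1 : ∀ f : V → Fin (2 * x), ((∑ v ∈ M, e v f) - M.card * q) ^ 2 =
        ∑ v ∈ M, ∑ v' ∈ M, (e v f - q) * (e v' f - q) := by
      intro f
      have h2 : (∑ v ∈ M, e v f) - M.card * q = ∑ v ∈ M, (e v f - q) := by
        rw [sum_sub_distrib, sum_const, nsmul_eq_mul]
      rw [h2, sq, sum_mul_sum]
    rw [sum_congr rfl (fun f _ => h1 f), sum_comm]
    refine sum_congr rfl (fun v _ => ?_)
    rw [sum_comm]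
  show ∑ f : V → Fin (2 * x), ((∑ v ∈ M, e v f) - M.card * q) ^ 2 ≤
    W * (q * (1 - q) * S)
  rw [hsum]
  have htot : ∑ v ∈ M, ∑ v' ∈ M, ((T v ∩ T v').card : ℝ) =
      ∑ u : V, ((M.filter (fun v => u ∈ T v)).card : ℝ) ^ 2 := by
    have h1 : ∀ v v' : V, ((T v ∩ T v').card : ℝ) =
        ∑ u : V, (if u ∈ T v then (1 : ℝ) else 0) * (if u ∈ T v' then (1 : ℝ) else 0) := by
      intro v v'
      have h2 : ∀ u : V, (if u ∈ T v then (1 : ℝ) else 0) * (if u ∈ T v' then (1 : ℝ) else 0) =
          if u ∈ T v ∩ T v' then (1 : ℝ) else 0 := by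
        intro u
        by_cases h3 : u ∈ T v <;> by_cases h4 : u ∈ T v' <;> simp [h3, h4]
      rw [sum_congr rfl (fun u _ => h2 u), ← sum_filter, sum_const, nsmul_eq_mul, mul_one]
      congr 2
      ext u
      simp
    have h2 : ∀ u : V, ((M.filter (fun v => u ∈ T v)).card : ℝ) =
        ∑ v ∈ M, (if u ∈ T v then (1 : ℝ) else 0) := by
      intro u
      rw [← sum_filter, sum_const, nsmul_eq_mul, mul_one]
    have h3 : ∀ u : V, ((M.filter (fun v => u ∈ T v)).card : ℝ) ^ 2 =
        ∑ v ∈ M, ∑ v' ∈ M,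
          (if u ∈ T v then (1 : ℝ) else 0) * (if u ∈ T v' then (1 : ℝ) else 0) := by
      intro u
      rw [h2 u, sq, sum_mul_sum]
    rw [sum_congr rfl (fun u _ => h3 u)]
    symm
    rw [sum_comm]
    refine sum_congr rfl (fun v _ => ?_)
    rw [sum_comm]
    exact sum_congr rfl (fun v' _ => (h1 v v').symm)
  have hq1 : 0 ≤ 1 - q := by
    have := pow_le_one₀ (n := x) (bet_nonneg x hx) (bet_le_one x hx)
    linarith
  calc ∑ v ∈ M, ∑ v' ∈ M, ∑ f : V → Fin (2 * x), (e v f - q) * (e v' f - q)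
      ≤ ∑ v ∈ M, ∑ v' ∈ M, W * (q * ((T v ∩ T v').card / (x : ℝ) * (1 - q))) :=
        sum_le_sum (fun v hv => sum_le_sum (fun v' hv' => hpair v hv v' hv'))
    _ = (W * q * (1 - q) / (x : ℝ)) * ∑ v ∈ M, ∑ v' ∈ M, ((T v ∩ T v').card : ℝ) := by
        rw [mul_sum]
        refine sum_congr rfl (fun v _ => ?_)
        rw [mul_sum]
        refine sum_congr rfl (fun v' _ => ?_)
        ring
    _ ≤ (W * q * (1 - q) / (x : ℝ)) * (x * S) := by
        rw [htot]
        apply mul_le_mul_of_nonneg_left hI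
        positivity
    _ = W * (q * (1 - q) * S) := by
        field_simp

/-- the first moment -/
theorem first_moment {V : Type} [Fintype V] [DecidableEq V] (x : ℕ) (hx : 1 ≤ x) (M : Finset V)
    (T : V → Finset V) (hT : ∀ v ∈ M, (T v).card = x) (c : Fin (2 * x)) :
    ∑ f : V → Fin (2 * x), (∑ v ∈ M, (if (∀ w ∈ T v, f w ≠ c) then (1 : ℝ) else 0)) =
      (2 * (x : ℝ)) ^ Fintype.card V * (M.card * bet x ^ x) := by
  rw [sum_comm]
  have h1 : ∀ v ∈ M, ∑ f : V → Fin (2 * x), (if (∀ w ∈ T v, f w ≠ c) then (1 : ℝ) else 0) =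
      (2 * (x : ℝ)) ^ Fintype.card V * bet x ^ x := by
    intro v hv
    rw [← sum_filter, sum_const, nsmul_eq_mul, mul_one, cnt_avoid x hx, hT v hv]
  rw [sum_congr rfl h1, sum_const, nsmul_eq_mul]
  ring

end HRND
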